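import Pool.Agent.RBN.Defs

/-!
# RBN/Cir: the circle factor, and the dictionary between `RollGluck` and `TwinP` over `N × Circle`
-/

open scoped Manifold ContDiff Topology
open Set Filter
open Complex (I)
open Pool.Agent.RSG (E3 E4 S4 ex cj c1 c2 fh Thick OnKnot IsRollGluck)
open Pool.Agent.RBM (ThickT TwinP OnT Box Bundle frc)

namespace Pool.Agent.RBN

theorem circ_add (s t : ℝ) : circ (s + t) = circ s * circ t := by
  unfold circ
  rw [mul_add, Circle.exp_add]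

theorem circ_zero : circ 0 = 1 := by
  unfold circ
  rw [mul_zero, Circle.exp_zero]

theorem Cir_coe (t : ℝ) : ((circ t : Circle) : ℂ) = Complex.exp ((2 * Real.pi * t : ℝ) * I) := by
  unfold circ
  rw [Circle.coe_exp]

theorem circ_int (m : ℤ) : circ m = 1 := by
  apply Circle.ext
  rw [Cir_coe, Circle.coe_one, Complex.exp_eq_one_iff]
  exact ⟨m, by push_cast; ring⟩

theorem circ_eq {s t : ℝ} : circ s = circ t ↔ ∃ m : ℤ, s = t + m := by
  constructor
  · intro h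
    have h1 : ((circ s : Circle) : ℂ) = circ t := by rw [h]
    rw [Cir_coe, Cir_coe, Complex.exp_eq_exp_iff_exists_int] at h1
    obtain ⟨m, hm⟩ := h1
    refine ⟨m, ?_⟩
    have h2 := congrArg Complex.im hm
    have e1 : (((2 * Real.pi * s : ℝ) : ℂ) * I).im = 2 * Real.pi * s := by
      rw [Complex.im_ofReal_mul, Complex.I_im, mul_one]
    have e2 : (((2 * Real.pi * t : ℝ) : ℂ) * I + m * (2 * Real.pi * I)).im = 2 * Real.pi * (t + m) := by
      have : ((2 * Real.pi * t : ℝ) : ℂ) * I + m * (2 * Real.pi * I) =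
          ((2 * Real.pi * (t + m) : ℝ) : ℂ) * I := by push_cast; ring
      rw [this, Complex.im_ofReal_mul, Complex.I_im, mul_one]
    rw [e1, e2] at h2
    exact mul_left_cancel₀ (by positivity) h2
  · rintro ⟨m, rfl⟩
    rw [circ_add, circ_int, mul_one]

theorem circ_per (t : ℝ) : circ (t + 1) = circ t := circ_eq.2 ⟨1, by push_cast; ring⟩

theorem Cir_arg (z : Circle) : circ (Complex.arg (z : ℂ) / (2 * Real.pi)) = z := by
  have e : 2 * Real.pi * (Complex.arg (z : ℂ) / (2 * Real.pi)) = Complex.arg (z : ℂ) := by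
    field_simp
  unfold circ
  rw [e]
  exact Circle.exp_arg z

theorem circ_surj (z : Circle) : ∃ t : ℝ, circ t = z := ⟨_, Cir_arg z⟩

theorem Cir_coe_smooth : ContMDiff (𝓡 1) 𝓘(ℝ, ℂ) ∞ (fun z : Circle => (z : ℂ)) := by
  have : Fact (Module.finrank ℝ ℂ = 1 + 1) := ⟨by rw [Complex.finrank_real_complex]⟩
  exact contMDiff_coe_sphere

theorem circ_smooth : ContMDiff 𝓘(ℝ, ℝ) (𝓡 1) ∞ circ := by
  have h : ContMDiff 𝓘(ℝ, ℝ) 𝓘(ℝ, ℝ) ∞ (fun t : ℝ => 2 * Real.pi * t) :=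
    (contDiff_const.mul contDiff_id).contMDiff
  exact contMDiff_circleExp.comp h

/-- local inverse of `circ` at `t` -/
noncomputable def Cir_g (t : ℝ) (z : Circle) : ℝ :=
  t + (Complex.log ((z : ℂ) * ((circ t)⁻¹ : Circle))).im / (2 * Real.pi)

theorem circ_ld (t : ℝ) : IsLocalDiffeomorphAt 𝓘(ℝ, ℝ) (𝓡 1) ∞ circ t := by
  have hc : Continuous fun z : Circle => (z : ℂ) * ((circ t)⁻¹ : Circle) :=
    Cir_coe_smooth.continuous.mul continuous_const
  have hslit : ∀ᶠ z : Circle in 𝓝 (circ t), (z : ℂ) * ((circ t)⁻¹ : Circle) ∈ Complex.slitPlane := by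
    refine hc.continuousAt.eventually (Complex.isOpen_slitPlane.mem_nhds ?_)
    change ((circ t : Circle) : ℂ) * ((circ t)⁻¹ : Circle) ∈ Complex.slitPlane
    rw [← Circle.coe_mul, mul_inv_cancel, Circle.coe_one]
    exact Complex.one_mem_slitPlane
  refine Pool.Agent.RSG.ld_two (g := Cir_g t) (Eventually.of_forall fun y => circ_smooth y) ?_ ?_ ?_
  · filter_upwards [hslit] with z hz
    have h1 : ContDiffAt ℝ ∞ (fun w : ℂ => t + (Complex.log (w * ((circ t)⁻¹ : Circle))).im / (2 * Real.pi)) (z : ℂ) := by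
      have h2 : ContDiffAt ℝ ∞ (fun w : ℂ => w * ((circ t)⁻¹ : Circle)) (z : ℂ) :=
        contDiffAt_id.mul contDiffAt_const
      have h3 : ContDiffAt ℝ ∞ Complex.log ((z : ℂ) * ((circ t)⁻¹ : Circle)) :=
        (Complex.contDiffAt_log hz).restrict_scalars ℝ
      have h4 := h3.comp (z : ℂ) h2
      exact contDiffAt_const.add ((Complex.imCLM.contDiff.contDiffAt.comp (z : ℂ) h4).div_const _)
    exact h1.contMDiffAt.comp z (Cir_coe_smooth z)
  · have hn : ∀ᶠ s : ℝ in 𝓝 t, |s - t| < 1 / 2 := by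
      have : ContinuousAt (fun s : ℝ => |s - t|) t := by fun_prop
      refine this.eventually (gt_mem_nhds ?_)
      simp
    filter_upwards [hn] with s hs
    have e1 : ((circ s : Circle) : ℂ) * ((circ t)⁻¹ : Circle) = Complex.exp ((2 * Real.pi * (s - t) : ℝ) * I) := by
      rw [← Cir_coe, ← Circle.coe_mul]
      congr 1
      have : circ s = circ (s - t) * circ t := by rw [← circ_add, sub_add_cancel]
      rw [this, mul_inv_cancel_right]
    obtain ⟨h1, h2⟩ := abs_lt.mp hs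
    have hpi := Real.pi_pos
    have e2 : (((2 * Real.pi * (s - t) : ℝ) : ℂ) * I).im = 2 * Real.pi * (s - t) := by
      rw [Complex.im_ofReal_mul, Complex.I_im, mul_one]
    unfold Cir_g
    rw [e1, Complex.log_exp (by rw [e2]; nlinarith) (by rw [e2]; nlinarith), e2]
    field_simp
    ring
  · refine Eventually.of_forall fun z => ?_
    unfold Cir_g
    rw [circ_add, Complex.log_im, ← Circle.coe_mul, Cir_arg, mul_comm, inv_mul_cancel_right]

variable {N : Type*} [TopologicalSpace N] [ChartedSpace E3 N]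

theorem on_prd {κ : ℝ × ℂ → N} {x : N} {z : Circle} : OnT (prd κ) (x, z) ↔ OnKnot κ x := by
  constructor
  · rintro ⟨l, t, h⟩
    exact ⟨l, congrArg Prod.fst h⟩
  · rintro ⟨l, h⟩
    obtain ⟨t, ht⟩ := circ_surj z
    exact ⟨l, t, Prod.ext h ht.symm⟩

theorem prd_thick {κ : ℝ × ℂ → N} (h : Thick κ) : ThickT IN (prd κ) := by
  refine ⟨?_, ?_, ?_, ?_⟩
  · intro l v t
    unfold prd
    rw [h.per]
  · intro l v t
    unfold prd
    rw [circ_per]
  · intro l v t hv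
    have h1 : IsLocalDiffeomorphAt (𝓘(ℝ, ℝ × ℂ).prod 𝓘(ℝ, ℝ)) IN ∞
        (Prod.map κ circ) ((l, v), t) := RSG.ld_prodMap (h.loc l v hv) (circ_ld t)
    have h2 : IsLocalDiffeomorphAt 𝓘(ℝ, ℝ × ℂ × ℝ) (𝓘(ℝ, ℝ × ℂ).prod 𝓘(ℝ, ℝ)) ∞
        (fun q : ℝ × ℂ × ℝ => ((q.1, q.2.1), q.2.2)) (l, v, t) := by
      rw [← modelWithCornersSelf_prod, chartedSpaceSelf_prod]
      refine CSG.ld_of_perm (f := (Equiv.prodAssoc ℝ ℂ ℝ).symm) ?_ ?_ (l, v, t)
      · exact (contDiff_fst.prodMk contDiff_snd.fst).prodMk contDiff_snd.snd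
      · exact contDiff_fst.fst.prodMk (contDiff_fst.snd.prodMk contDiff_snd)
    exact IsLocalDiffeomorphAt.comp (hf := h2) (hg := h1) ..
  · intro l v t l' v' t' hv hv' he
    unfold prd at he
    simp only [Prod.mk.injEq] at he
    obtain ⟨h1, h2⟩ := h.inj _ _ _ _ hv hv' he.1
    exact ⟨h1, h2, circ_eq.1 he.2.symm⟩

theorem pb_ld {β : ℂ × ℝ → N} {z : ℂ} {s : ℝ} (h : IsLocalDiffeomorphAt 𝓘(ℝ, ℂ × ℝ) (𝓡 3) ∞ β (z, s)) (t : ℝ) :
    IsLocalDiffeomorphAt 𝓘(ℝ, ℂ × ℝ × ℝ) IN ∞ (pb β) (z, s, t) := by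
  have h1 : IsLocalDiffeomorphAt (𝓘(ℝ, ℂ × ℝ).prod 𝓘(ℝ, ℝ)) IN ∞
      (Prod.map β circ) ((z, s), t) := RSG.ld_prodMap h (circ_ld t)
  have h2 : IsLocalDiffeomorphAt 𝓘(ℝ, ℂ × ℝ × ℝ) (𝓘(ℝ, ℂ × ℝ).prod 𝓘(ℝ, ℝ)) ∞
      (fun q : ℂ × ℝ × ℝ => ((q.1, q.2.1), q.2.2)) (z, s, t) := by
    rw [← modelWithCornersSelf_prod, chartedSpaceSelf_prod]
    refine CSG.ld_of_perm (f := (Equiv.prodAssoc ℂ ℝ ℝ).symm) ?_ ?_ (z, s, t)
    · exact (contDiff_fst.prodMk contDiff_snd.fst).prodMk contDiff_snd.snd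
    · exact contDiff_fst.fst.prodMk (contDiff_fst.snd.prodMk contDiff_snd)
  exact IsLocalDiffeomorphAt.comp (hf := h2) (hg := h1) ..

theorem dic {κ : ℝ × ℂ → N} {n j : ℤ} {X : Type*} [TopologicalSpace X] [ChartedSpace E4 X] :
    Nonempty (TwinP IN (prd κ) n j X) ↔ IsRollGluck κ n j X := by
  constructor
  · rintro ⟨D⟩
    refine ⟨{ A := fun p => D.A (p.1, circ p.2), Q := D.Q, A_per := ?_, A_loc := ?_, A_inj := ?_, Q_loc := D.Q_loc,
              Q_inj := D.Q_inj, glue := ?_, disj := ?_, cover := ?_ }⟩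
    · intro x t
      simp only
      rw [circ_per]
    · intro x t hx
      have h1 : IsLocalDiffeomorphAt ((𝓡 3).prod 𝓘(ℝ, ℝ)) IN ∞ (Prod.map (id : N → N) circ) (x, t) :=
        RSG.ld_prodMap (CSG.ld_id x) (circ_ld t)
      have h2 := D.A_loc (x, circ t) (fun h => hx (on_prd.1 h))
      exact IsLocalDiffeomorphAt.comp (hf := h1) (hg := h2) ..
    · intro x x' t t' hx hx' h
      have h1 := D.A_inj _ _ (fun h => hx (on_prd.1 h)) (fun h => hx' (on_prd.1 h)) h
      simp only [Prod.mk.injEq] at h1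
      exact ⟨h1.1, circ_eq.1 h1.2.symm⟩
    · intro z l m t hf h1 h2 e1 e2 e3
      have e1' : c1 z = ‖c1 z‖ * ex (m + (1 - j) * t) := by
        rw [show (m + (1 - j) * t : ℝ) = ((1 : ℤ) : ℝ) * m + ((1 - j : ℤ) : ℝ) * t by push_cast; ring]
        exact e1
      have e2' : c2 z = ‖c2 z‖ * ex (m - j * t) := by
        rw [show (m - j * t : ℝ) = ((1 : ℤ) : ℝ) * m + ((-j : ℤ) : ℝ) * t by push_cast; ring]
        exact e2
      exact D.glue z l m t hf h1 h2 e1' e2' e3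
    · intro z x t hf h hx
      exact D.disj z _ hf h (fun h => hx (on_prd.1 h))
    · intro q
      rcases D.cover q with ⟨⟨x, z⟩, hp, hq⟩ | h
      · obtain ⟨t, ht⟩ := circ_surj z
        refine Or.inl ⟨x, t, fun h => hp (on_prd.2 h), ?_⟩
        rw [hq]
        simp only
        rw [ht]
      · exact Or.inr h
  · rintro ⟨D⟩
    choose τ hτ using circ_surj
    have key : ∀ x t, D.A (x, τ (circ t)) = D.A (x, t) := by
      intro x t
      obtain ⟨m, hm⟩ := circ_eq.1 (hτ (circ t))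
      rw [hm]
      exact RSG.GerM_per (f := fun s => D.A (x, s)) (fun s => D.A_per _ _) t m
    refine ⟨{ A := fun p => D.A (p.1, τ p.2), Q := D.Q, A_loc := ?_, A_inj := ?_, Q_loc := D.Q_loc,
              Q_inj := D.Q_inj, glue := ?_, disj := ?_, cover := ?_ }⟩
    · rintro ⟨x, z⟩ hp
      have hx : ¬ RSG.OnKnot κ x := fun h => hp (on_prd.2 h)
      have h1 : IsLocalDiffeomorphAt ((𝓡 3).prod 𝓘(ℝ, ℝ)) IN ∞ (Prod.map (id : N → N) circ) (x, τ z) :=
        RSG.ld_prodMap (CSG.ld_id x) (circ_ld (τ z))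
      have h2 : IsLocalDiffeomorphAt ((𝓡 3).prod 𝓘(ℝ, ℝ)) (𝓡 4) ∞
          ((fun p : N × Circle => D.A (p.1, τ p.2)) ∘ (Prod.map (id : N → N) circ)) (x, τ z) := by
        have e : ((fun p : N × Circle => D.A (p.1, τ p.2)) ∘ (Prod.map (id : N → N) circ)) = D.A := by
          funext p
          exact key p.1 p.2
        rw [e]
        exact D.A_loc x (τ z) hx
      have h3 := CSG.ld_of_comp_left h2 h1
      have e3 : Prod.map (id : N → N) circ (x, τ z) = (x, z) := Prod.ext rfl (hτ z)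
      rw [e3] at h3
      exact h3
    · rintro ⟨x, z⟩ ⟨x', z'⟩ hp hp' h
      have hx : ¬ RSG.OnKnot κ x := fun h => hp (on_prd.2 h)
      have hx' : ¬ RSG.OnKnot κ x' := fun h => hp' (on_prd.2 h)
      obtain ⟨h1, h2⟩ := D.A_inj _ _ _ _ hx hx' h
      have h3 : z' = z := by
        have h4 := circ_eq.2 h2
        rw [hτ, hτ] at h4
        exact h4
      exact Prod.ext h1 h3.symm
    · intro z l m t hf h1 h2 e1 e2 e3
      have e1' : c1 z = ‖c1 z‖ * ex (((1 : ℤ) : ℝ) * m + ((1 - j : ℤ) : ℝ) * t) := by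
        rw [show ((1 : ℤ) : ℝ) * m + ((1 - j : ℤ) : ℝ) * t = (m + (1 - j) * t : ℝ) by push_cast; ring]
        exact e1
      have e2' : c2 z = ‖c2 z‖ * ex (((1 : ℤ) : ℝ) * m + ((-j : ℤ) : ℝ) * t) := by
        rw [show ((1 : ℤ) : ℝ) * m + ((-j : ℤ) : ℝ) * t = (m - j * t : ℝ) by push_cast; ring]
        exact e2
      have h3 := D.glue z l m t hf h1 h2 e1' e2' e3
      rw [h3]
      exact (key _ t).symm
    · rintro z ⟨x, w⟩ hf h hp
      exact D.disj z x (τ w) hf h (fun h => hp (on_prd.2 h))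
    · intro q
      rcases D.cover q with ⟨x, t, hx, hq⟩ | h
      · refine Or.inl ⟨(x, circ t), fun h => hx (on_prd.1 h), ?_⟩
        rw [hq]
        exact (key x t).symm
      · exact Or.inr h

end Pool.Agent.RBN
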