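import Pool.Agent.RBH.Main
import Pool.Agent.RSG.Main
import Pool.Agent.ISO.Cod0

/-!
# RBN/Defs: ribbon homotopies of knots in a 3-manifold `N`

A ribbon is a thick band of `N` which contains exactly two strands of the knot (`z = ±1`, `|s| < 1` in the coordinates `(z, s)` of a
thickened disc `‖z‖ < 4`, `|s| < 1`).  In a ribbon homotopy the band moves by a regular homotopy, i.e. through immersions: it may
cross itself, but not the rest of the knot.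
-/

open scoped Manifold ContDiff Topology
open Set Filter
open Complex (I)
open Pool.Agent.CSG (stp)
open Pool.Agent.RSG (E3 E4 S4 ex cj Thick Strand FourMove OnKnot IsRollGluck)
open Pool.Agent.RBM (ThickT TwinP OnT Box Bundle frc)

namespace Pool.Agent.RBN

section
variable {N : Type*} [TopologicalSpace N] [ChartedSpace E3 N]

/-- `b x`, `0 ≤ x ≤ 1`, is a smooth family of immersions of `‖z‖ < 4`, `|s| < 1` in `N`, fixed for `1/4 ≤ |s|`, which are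
embeddings for `x = 0` and `x = 1`; the moving part `|s| ≤ 1/4` never meets the end pieces `1/2 ≤ |s| < 1`. -/
structure TubeHom (b : ℝ → ℂ × ℝ → N) : Prop where
  smooth : ∀ x ∈ Icc (0 : ℝ) 1, ∀ (z : ℂ) (s : ℝ), ‖z‖ < 4 → |s| < 1 →
    ContMDiffAt 𝓘(ℝ, ℝ × (ℂ × ℝ)) (𝓡 3) ∞ (fun q : ℝ × (ℂ × ℝ) => b q.1 q.2) (x, (z, s))
  loc : ∀ x ∈ Icc (0 : ℝ) 1, ∀ (z : ℂ) (s : ℝ), ‖z‖ < 4 → |s| < 1 →
    IsLocalDiffeomorphAt 𝓘(ℝ, ℂ × ℝ) (𝓡 3) ∞ (b x) (z, s)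
  ends : ∀ x ∈ Icc (0 : ℝ) 1, ∀ (z : ℂ) (s : ℝ), ‖z‖ < 4 → |s| < 1 → 1 / 4 ≤ |s| → b x (z, s) = b 0 (z, s)
  inj₀ : ∀ (z : ℂ) (s : ℝ) (z' : ℂ) (s' : ℝ), ‖z‖ < 4 → |s| < 1 → ‖z'‖ < 4 → |s'| < 1 →
    b 0 (z, s) = b 0 (z', s') → z = z' ∧ s = s'
  inj₁ : ∀ (z : ℂ) (s : ℝ) (z' : ℂ) (s' : ℝ), ‖z‖ < 4 → |s| < 1 → ‖z'‖ < 4 → |s'| < 1 →
    b 1 (z, s) = b 1 (z', s') → z = z' ∧ s = s'
  sep : ∀ x ∈ Icc (0 : ℝ) 1, ∀ (z : ℂ) (s : ℝ) (z' : ℂ) (s' : ℝ), ‖z‖ < 4 → |s| ≤ 1 / 4 → ‖z'‖ < 4 →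
    1 / 2 ≤ |s'| → |s'| < 1 → b x (z, s) ≠ b 0 (z', s')

/-- `κ'` is obtained from the thick knot `κ` by the ribbon homotopy `b`: two thick strands of `κ` in the ribbon `b 0` are replaced by
the same strands in `b 1`; the rest of the knot is fixed and never meets the moving ribbon.  The signs are the directions of the
strands. -/
structure RibbonVia (κ κ' : ℝ × ℂ → N) (b : ℝ → ℂ × ℝ → N) (ε₁ ε₂ : ℝ) : Prop where
  thick : Thick κ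
  thick' : Thick κ'
  sign₁ : ε₁ = 1 ∨ ε₁ = -1
  sign₂ : ε₂ = 1 ∨ ε₂ = -1
  tube : TubeHom b
  strand₁ : Strand κ (b 0) 1 ε₁
  strand₂ : Strand κ (b 0) (-1) ε₂
  strand₁' : Strand κ' (b 1) 1 ε₁
  strand₂' : Strand κ' (b 1) (-1) ε₂
  rest : ∀ (l : ℝ) (v : ℂ), ‖v‖ < 1 →
    (∀ k : ℤ, 1 / 16 ≤ |l - 1 / 4 - k| ∧ 1 / 16 ≤ |l - 3 / 4 - k|) →
      κ' (l, v) = κ (l, v) ∧ ∀ x ∈ Icc (0 : ℝ) 1, ∀ (z : ℂ) (s : ℝ), ‖z‖ < 4 → |s| < 1 → κ (l, v) ≠ b x (z, s)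

/-- `κ'` is obtained from `κ` by a ribbon homotopy. -/
def RibbonMove (κ κ' : ℝ × ℂ → N) : Prop := ∃ (b : ℝ → ℂ × ℝ → N) (ε₁ ε₂ : ℝ), RibbonVia κ κ' b ε₁ ε₂

/-- The equivalence relation on thick knots generated by the ribbon homotopies, the 4-moves, the diffeomorphisms of `N` and by
changing a thick knot outside a neighbourhood of the knot. -/
inductive RibbonEquiv : (ℝ × ℂ → N) → (ℝ × ℂ → N) → Prop
  | ribbon {κ κ' : ℝ × ℂ → N} : RibbonMove κ κ' → RibbonEquiv κ κ'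
  | four {κ κ' : ℝ × ℂ → N} : FourMove κ κ' → RibbonEquiv κ κ'
  | diffeo (κ : ℝ × ℂ → N) (F : N ≃ₘ⟮𝓡 3, 𝓡 3⟯ N) : RibbonEquiv κ (F ∘ κ)
  | germ {κ κ' : ℝ × ℂ → N} (η : ℝ) : 0 < η → Thick κ → Thick κ' →
      (∀ (l : ℝ) (v : ℂ), ‖v‖ < η → κ' (l, v) = κ (l, v)) → RibbonEquiv κ κ'
  | symm {κ κ' : ℝ × ℂ → N} : RibbonEquiv κ κ' → RibbonEquiv κ' κ
  | trans {κ κ' κ'' : ℝ × ℂ → N} : RibbonEquiv κ κ' → RibbonEquiv κ' κ'' → RibbonEquiv κ κ''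

end

/-! ## thinning -/

/-- `w₀` for `|s| ≤ 1/4`, `1` for `|s| ≥ 1/2` -/
noncomputable def wf (w₀ s : ℝ) : ℝ := w₀ + (1 - w₀) * stp (1 / 16) (1 / 4) (s ^ 2)

/-- contraction in the middle -/
noncomputable def thn (w₀ : ℝ) (q : ℂ × ℝ) : ℂ × ℝ := ((wf w₀ q.2 : ℂ) * q.1, q.2)

/-- `w₀` and `δ` are small enough for the family `b` -/
structure ThinOK {N : Type*} (b : ℝ → ℂ × ℝ → N) (w₀ δ : ℝ) : Prop where
  w_pos : 0 < w₀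
  w_le : w₀ ≤ 1
  d_pos : 0 < δ
  d_le : δ ≤ 1 / 64
  inj : ∀ x ∈ Icc (0 : ℝ) 1, ∀ q q' : ℂ × ℝ, ‖q.1‖ ≤ 7 / 2 → ‖q'.1‖ ≤ 7 / 2 → |q.2| < 1 → |q'.2| < 1 →
    |q.2 - q'.2| ≤ 24 * δ → b x (thn w₀ q) = b x (thn w₀ q') → q = q'

/-! ## the circle factor -/

/-- the point of the circle with angle `2πt` -/
noncomputable def circ (t : ℝ) : Circle := Circle.exp (2 * Real.pi * t)

/-- the product thick torus in `N × S¹` -/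
noncomputable def prd {N : Type*} (κ : ℝ × ℂ → N) (q : ℝ × ℂ × ℝ) : N × Circle := (κ (q.1, q.2.1), circ q.2.2)

/-- product box -/
noncomputable def pb {N : Type*} (β : ℂ × ℝ → N) (q : ℂ × ℝ × ℝ) : N × Circle := (β (q.1, q.2.1), circ q.2.2)

/-- the model of `N × S¹` -/
noncomputable abbrev IN := (𝓡 3).prod (𝓡 1)

/-- the union of the moving parts -/
def Mov {N : Type*} (b : ℝ → ℂ × ℝ → N) : Set N :=
  {p | ∃ x ∈ Icc (0 : ℝ) 1, ∃ (z : ℂ) (s : ℝ), ‖z‖ < 4 ∧ |s| < 3 / 8 ∧ p = b x (z, s)}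

end Pool.Agent.RBN
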