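import Pool.Agent.RBN.Nbh

/-!
# RBN/CodS: isotopy extension in codimension 0 in a manifold, a small step   (difficulty 3)

(Model: `Cod0_step` in ISO/Cod0.lean; here the target is a manifold `P`, so the perturbation is made in the source `V`.)
`f = e s₀`.  `nbhd_inj` gives `U₀`; `f '' U₀` is open (`CSG.ld_image_nhds`).  `g : P → V` the inverse of `f` on `f '' U₀` (choice, `InjOn`), smooth at every point of
`f '' U₀` (it agrees near `f x` with `(ld x).localInverse`, as in `hDs` of `Cod0_step`).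
Compact sets `C ⊆ interior K₀ ⊆ K₀ ⊆ interior K₁ ⊆ K₁ ⊆ U₀` (`exists_compact_between`).  By the tube lemma there is `ε > 0` with `e s x ∈ f '' U₀` for `|s - s₀| < ε`, `x ∈ K₁`.
Cutoffs (`ISO.exists_cut`): `χ : V → ℝ`, `1` on `K₀`, zero off a compact `C₁ ⊆ interior K₁`; `ρ : ℝ → ℝ`, `1` on `|s - s₀| ≤ ε / 4`, zero off a compact subset of
`|s - s₀| < ε`.  `G (s, x) = (ρ s * χ x) • (g (e s x) - x)`: smooth on `ℝ × V`, `G (s₀, x) = 0`, zero for `x ∉ C₁`.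
`ISO.small_family` with `Λ = ⊥`, `O = U₀`: for `s` near `s₀` a permutation `L` of `V`, `Move ⊥ U₀ L`, `L x = x + G (s, x)`.  If also `|s - s₀| ≤ ε / 4`: for `x ∈ K₀`,
`L x = g (e s x)`, so `f (L x) = e s x`.
`ext_perm` below (`β = f`, `Λ = ⊥`, `O = U₀`) gives `F` with `F (f x) = f (L x)` for `x ∈ U₀`, `F = id` off `f '' U₀ ⊆ O`.  `U = interior K₀`.
Stationary points `y = f x`, `x ∈ U₀`: `e s x = y = f x`, so `g (e s x) = x` and `L x = x`.
-/

open scoped Manifold ContDiff Topology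
open Set Filter
open Complex (I)
open Pool.Agent.CSG (stp)
open Pool.Agent.RSG (E3 E4 S4 ex cj Thick Strand FourMove OnKnot IsRollGluck)
open Pool.Agent.RBM (ThickT TwinP OnT Box Bundle frc)

namespace Pool.Agent.RBN

section
variable {V : Type*} [NormedAddCommGroup V] [NormedSpace ℝ V]
  {EP : Type*} [NormedAddCommGroup EP] [NormedSpace ℝ EP] {HP : Type*} [TopologicalSpace HP]
  {IP : ModelWithCorners ℝ EP HP} {P : Type*} [TopologicalSpace P] [ChartedSpace HP P]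

theorem ld_symm {F : Equiv.Perm P} (hF : ∀ p, IsLocalDiffeomorphAt IP IP ∞ F p) (p : P) :
    IsLocalDiffeomorphAt IP IP ∞ F.symm p := by
  have h1 := CSG.ld_of_comp_left (I := IP) (J := IP) (K := IP) (n := ∞) (f := F) (g := F.symm)
    (x := F.symm p) ?_ (hF (F.symm p))
  · rw [Equiv.apply_symm_apply] at h1
    exact h1
  · have h2 : (F.symm ∘ F : P → P) = id := by
      funext x
      simp
    rw [h2]
    exact CSG.ld_id (F.symm p)

theorem moveW {Λ : AddSubgroup V} {W : Set V} (hW : ∀ x ∈ W, ∀ m ∈ Λ, x + m ∈ W) {F : Equiv.Perm V}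
    (hF : ISO.Move Λ W F) : ∀ x ∈ W, F x ∈ W := by
  obtain ⟨S, hS, hSW, hFS⟩ := hF.supp
  intro x hx
  by_cases h : ∀ m ∈ Λ, F x + m ∉ S
  · have h1 := hFS _ h
    have h2 : F x = x := F.injective h1
    rw [h2]
    exact hx
  · push Not at h
    obtain ⟨m, hm, h⟩ := h
    have := hW _ (hSW h) (-m) (Λ.neg_mem hm)
    simpa using this

theorem moveW' {Λ : AddSubgroup V} {W : Set V} (hW : ∀ x ∈ W, ∀ m ∈ Λ, x + m ∈ W) {F : Equiv.Perm V}
    (hF : ISO.Move Λ W F) : ∀ x ∈ W, F.symm x ∈ W := by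
  obtain ⟨S, hS, hSW, hFS⟩ := hF.supp
  intro x hx
  by_cases h : ∀ m ∈ Λ, F.symm x + m ∉ S
  · have h1 := hFS _ h
    rw [Equiv.apply_symm_apply] at h1
    rw [← h1]
    exact hx
  · push Not at h
    obtain ⟨m, hm, h⟩ := h
    have := hW _ (hSW h) (-m) (Λ.neg_mem hm)
    simpa using this

/-- extension of a move in a chart -/
theorem ext_perm [T2Space P] {Λ : AddSubgroup V} {β : V → P} {O : Set V} (hOo : IsOpen O)
    (hO : ∀ x ∈ O, ∀ m ∈ Λ, x + m ∈ O) (hper : ∀ x ∈ O, ∀ m ∈ Λ, β (x + m) = β x)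
    (hld : ∀ x ∈ O, IsLocalDiffeomorphAt 𝓘(ℝ, V) IP ∞ β x)
    (hinj : ∀ x ∈ O, ∀ x' ∈ O, β x = β x' → ∃ m ∈ Λ, x' = x + m)
    {F : Equiv.Perm V} (hF : ISO.Move Λ O F) :
    ∃ Γ : Equiv.Perm P, (∀ p, IsLocalDiffeomorphAt IP IP ∞ Γ p) ∧ (∀ x ∈ O, Γ (β x) = β (F x)) ∧
      ∀ p, p ∉ β '' O → Γ p = p := by
  obtain ⟨S, hS, hSO, hFS⟩ := hF.supp
  have hFO := moveW hO hF
  have hFO' := moveW' hO hF
  have hcomm' : ∀ m ∈ Λ, ∀ x, F.symm (x + m) = F.symm x + m := by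
    intro m hm x
    apply F.injective
    rw [hF.comm m hm]
    simp
  have hCO : {x : V | ∃ m ∈ Λ, x + m ∈ S} ⊆ O := by
    rintro x ⟨m, hm, h⟩
    have := hO _ (hSO h) (-m) (Λ.neg_mem hm)
    simpa using this
  have hcl : IsClosed (β '' {x : V | ∃ m ∈ Λ, x + m ∈ S}) := by
    have e : β '' {x : V | ∃ m ∈ Λ, x + m ∈ S} = β '' S := by
      apply Subset.antisymm
      · rintro _ ⟨x, ⟨m, hm, hx⟩, rfl⟩
        exact ⟨x + m, hx, hper x (hCO ⟨m, hm, hx⟩) m hm⟩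
      · apply image_mono
        intro x hx
        exact ⟨0, Λ.zero_mem, by simpa using hx⟩
    rw [e]
    refine IsCompact.isClosed (IsCompact.image_of_continuousOn hS ?_)
    intro x hx
    exact (CSG.ld_continuousAt (hld x (hSO hx))).continuousWithinAt
  obtain ⟨Γ, g1, g2, g3, -⟩ := CSG.exists_gamma (J := IP) β O {x : V | ∃ m ∈ Λ, x + m ∈ S} ∅ F F.symm
    hOo hld (fun z _ => by simp)
    (fun z _ => (Diffeomorph.isLocalDiffeomorph (I := 𝓘(ℝ, V)) (J := 𝓘(ℝ, V)) (n := ∞)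
        ⟨F, hF.smooth.contMDiff, hF.smooth_symm.contMDiff⟩) z)
    (fun z _ => by simp) (fun z _ => by simp)
    (fun z hz => hFO z hz) (fun z hz => hFO' z hz)
    (fun z hz z' hz' he => by
      obtain ⟨m, hm, rfl⟩ := hinj z hz z' hz' he
      rw [hF.comm m hm, hper _ (hFO z hz) m hm])
    (fun z hz z' hz' he => by
      obtain ⟨m, hm, rfl⟩ := hinj z hz z' hz' he
      rw [hcomm' m hm, hper _ (hFO' z hz) m hm])
    (fun z _ hzC => hFS z (fun m hm h => hzC ⟨m, hm, h⟩))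
    (by rw [union_empty]; exact hcl) hCO
  exact ⟨Γ, fun p => g1 p (by simp), g2, g3⟩

theorem cod_step [FiniteDimensional ℝ V] [T2Space P] {W : Set V} (hW : IsOpen W) {e : ℝ → V → P}
    (he : ∀ s, ∀ x ∈ W, ContMDiffAt 𝓘(ℝ, ℝ × V) IP ∞ (fun q : ℝ × V => e q.1 q.2) (s, x))
    {C : Set V} (hC : IsCompact C) (hCW : C ⊆ W) (s₀ : ℝ)
    (hld : ∀ x ∈ C, IsLocalDiffeomorphAt 𝓘(ℝ, V) IP ∞ (e s₀) x)
    (hinj : ∀ x ∈ C, ∀ x' ∈ C, e s₀ x = e s₀ x' → x = x') {O : Set P} (hO : IsOpen O)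
    (hCO : ∀ x ∈ C, e s₀ x ∈ O) :
    ∀ᶠ s in 𝓝 s₀, ∃ (F : Equiv.Perm P) (U : Set V), (∀ p, IsLocalDiffeomorphAt IP IP ∞ F p) ∧
      (∀ p, p ∉ O → F p = p) ∧ IsOpen U ∧ C ⊆ U ∧ (∀ x ∈ U, F (e s₀ x) = e s x) ∧
      ∀ y, (∀ s₁, ∀ x ∈ W, e s₁ x = y → ∀ s', e s' x = y) → F y = y := by
  have hCV : CompleteSpace V := FiniteDimensional.complete ℝ V
  have hlc : LocallyCompactSpace V := inferInstance
  obtain ⟨U₀, hU₀, hCU, hUW, hUld, hUinj, hUO⟩ := nbhd_inj hW (f := e s₀) hC hCW hld hinj hO hCO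
  obtain ⟨g, hg⟩ : ∃ g : P → V, ∀ x ∈ U₀, g (e s₀ x) = x :=
    ⟨Function.invFunOn (e s₀) U₀, fun x hx => hUinj.leftInvOn_invFunOn hx⟩
  have hYo : IsOpen (e s₀ '' U₀) := by
    rw [isOpen_iff_mem_nhds]
    rintro y ⟨x, hx, rfl⟩
    exact CSG.ld_image_nhds (hUld x hx) (hU₀.mem_nhds hx)
  have hgs : ∀ y ∈ e s₀ '' U₀, ContMDiffAt IP 𝓘(ℝ, V) ∞ g y := by
    rintro y ⟨x, hx, rfl⟩
    have hl := hUld x hx
    have hg1 : ContMDiffAt IP 𝓘(ℝ, V) ∞ hl.localInverse (e s₀ x) := hl.localInverse_contMDiffAt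
    have hg2 : hl.localInverse (e s₀ x) = x := hl.localInverse_left_inv hl.localInverse_mem_target
    have hg3 := hl.localInverse_eventuallyEq_right
    refine hg1.congr_of_eventuallyEq ?_
    have hev1 : ∀ᶠ p in 𝓝 (e s₀ x), hl.localInverse p ∈ U₀ := by
      refine hg1.continuousAt.eventually ?_
      rw [hg2]
      exact hU₀.mem_nhds hx
    filter_upwards [hev1, hg3] with p h1 h2
    have h2' : e s₀ (hl.localInverse p) = p := h2
    have h3 := hg _ h1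
    rw [h2'] at h3
    exact h3
  -- compact sets
  obtain ⟨K₀, hK₀, hCK, hK₀U⟩ := exists_compact_between hC hU₀ hCU
  obtain ⟨K₁, hK₁, hK₀K, hK₁U⟩ := exists_compact_between hK₀ hU₀ hK₀U
  have hcont : ContinuousOn (fun q : ℝ × V => e q.1 q.2) (univ ×ˢ U₀) := by
    rintro ⟨s, x⟩ hq
    exact (he s x (hUW hq.2)).continuousAt.continuousWithinAt
  have hZ : IsOpen ((univ ×ˢ U₀) ∩ (fun q : ℝ × V => e q.1 q.2) ⁻¹' (e s₀ '' U₀)) :=
    hcont.isOpen_inter_preimage (isOpen_univ.prod hU₀) hYo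
  obtain ⟨u, v, hu, hv, hsu, hKv, huv⟩ := generalized_tube_lemma (s := {s₀}) (t := K₁) isCompact_singleton hK₁ hZ (by
    rintro ⟨s, x⟩ ⟨hs, hx⟩
    have hs' : s = s₀ := hs
    rw [hs']
    exact ⟨⟨mem_univ _, hK₁U hx⟩, x, hK₁U hx, rfl⟩)
  have hsu' : s₀ ∈ u := hsu rfl
  have hY : ∀ s ∈ u, ∀ x ∈ K₁, e s x ∈ e s₀ '' U₀ := fun s hs x hx =>
    (huv (show (s, x) ∈ u ×ˢ v from ⟨hs, hKv hx⟩)).2
  obtain ⟨J, hJ, hsJ, hJu⟩ := exists_compact_between (isCompact_singleton (x := s₀)) hu (by simpa using hsu')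
  obtain ⟨ρ, R, r1, r2, r3, r4, r5, -⟩ := ISO.exists_cut hu hJ hJu
  obtain ⟨χ, C₁, c1, c2, c3, c4, c5, -⟩ := ISO.exists_cut isOpen_interior hK₀ hK₀K
  have hGs : ContDiff ℝ ∞ (fun q : ℝ × V => (ρ q.1 * χ q.2) • (g (e q.1 q.2) - q.2)) := by
    rw [contDiff_iff_contDiffAt]
    rintro ⟨s, x⟩
    by_cases hx : x ∈ interior K₁
    · by_cases hs : s ∈ u
      · have hx1 : x ∈ K₁ := interior_subset hx
        have e1 : ContMDiffAt 𝓘(ℝ, ℝ × V) 𝓘(ℝ, V) ∞ (g ∘ fun q : ℝ × V => e q.1 q.2) (s, x) :=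
          ContMDiffAt.comp (s, x) (hgs _ (hY s hs x hx1)) (he s x (hUW (hK₁U hx1)))
        have e2 : ContDiffAt ℝ ∞ (g ∘ fun q : ℝ × V => e q.1 q.2) (s, x) := e1.contDiffAt
        have e3 : ContDiffAt ℝ ∞ (fun q : ℝ × V => ρ q.1 * χ q.2) (s, x) :=
          ((r1.comp contDiff_fst).mul (c1.comp contDiff_snd)).contDiffAt
        exact e3.smul (e2.sub contDiffAt_snd)
      · have hsR : s ∉ R := fun h => hs (r3 h)
        have h1 : (fun q : ℝ × V => (ρ q.1 * χ q.2) • (g (e q.1 q.2) - q.2)) =ᶠ[𝓝 (s, x)] fun _ => (0 : V) := by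
          have h2 : ∀ᶠ q : ℝ × V in 𝓝 (s, x), q.1 ∈ Rᶜ :=
            (continuousAt_fst (p := (s, x))).eventually (r2.isClosed.isOpen_compl.mem_nhds hsR)
          filter_upwards [h2] with q hq
          rw [r4 _ hq, zero_mul, zero_smul]
        exact contDiffAt_const.congr_of_eventuallyEq h1
    · have hxC : x ∉ C₁ := fun h => hx (c3 h)
      have h1 : (fun q : ℝ × V => (ρ q.1 * χ q.2) • (g (e q.1 q.2) - q.2)) =ᶠ[𝓝 (s, x)] fun _ => (0 : V) := by
        have h2 : ∀ᶠ q : ℝ × V in 𝓝 (s, x), q.2 ∈ C₁ᶜ :=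
          (continuousAt_snd (p := (s, x))).eventually (c2.isClosed.isOpen_compl.mem_nhds hxC)
        filter_upwards [h2] with q hq
        rw [c4 _ hq, mul_zero, zero_smul]
      exact contDiffAt_const.congr_of_eventuallyEq h1
  have hlat : ISO.Lat (⊥ : AddSubgroup V) := by
    intro r
    refine (Set.finite_singleton (0 : V)).subset ?_
    rintro m ⟨hm, -⟩
    exact AddSubgroup.mem_bot.1 hm
  have hsm := ISO.small_family hlat (O := U₀) (C := C₁)
    (G := fun q : ℝ × V => (ρ q.1 * χ q.2) • (g (e q.1 q.2) - q.2)) hGs (s₀ := s₀)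
    (by
      intro x
      show (ρ s₀ * χ x) • (g (e s₀ x) - x) = 0
      by_cases hx : x ∈ U₀
      · rw [hg x hx, sub_self, smul_zero]
      · rw [c4 x (fun h => hx (hK₁U (interior_subset (c3 h)))), mul_zero, zero_smul])
    (by
      intro m hm s x
      rw [AddSubgroup.mem_bot.1 hm, add_zero]) c2 (fun x hx => hK₁U (interior_subset (c3 hx)))
    (by
      intro s x hx
      have h1 : x ∉ C₁ := by
        have := hx 0 (AddSubgroup.zero_mem _)
        rwa [add_zero] at this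
      show (ρ s * χ x) • (g (e s x) - x) = 0
      rw [c4 x h1, mul_zero, zero_smul])
  have hJn : J ∈ 𝓝 s₀ := mem_interior_iff_mem_nhds.1 (hsJ rfl)
  filter_upwards [hsm, hJn] with s hs hsJ'
  obtain ⟨L, hL, hLx⟩ := hs
  have hLx : ∀ x, L x = x + (ρ s * χ x) • (g (e s x) - x) := hLx
  obtain ⟨Γ, G1, G2, G3⟩ := ext_perm (IP := IP) (Λ := ⊥) (β := e s₀) hU₀
    (by
      intro x hx m hm
      rw [AddSubgroup.mem_bot.1 hm, add_zero]
      exact hx)
    (by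
      intro x hx m hm
      rw [AddSubgroup.mem_bot.1 hm, add_zero]) hUld
    (by
      intro x hx x' hx' h
      refine ⟨0, AddSubgroup.zero_mem _, ?_⟩
      rw [add_zero]
      exact (hUinj hx hx' h).symm) hL
  refine ⟨Γ, interior K₀, G1, ?_, isOpen_interior, hCK, ?_, ?_⟩
  · intro p hp
    apply G3
    rintro ⟨x, hx, rfl⟩
    exact hp (hUO x hx)
  · intro x hx
    have hx0 : x ∈ K₀ := interior_subset hx
    have hxK : x ∈ K₁ := interior_subset (hK₀K hx0)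
    have hsU : s ∈ u := hJu hsJ'
    rw [G2 x (hK₁U hxK), hLx, r5 s hsJ', c5 x hx0, one_mul, one_smul]
    obtain ⟨x', hx', h1⟩ := hY s hsU x hxK
    rw [← h1, hg x' hx', add_sub_cancel, h1]
  · intro y hy
    by_cases hyY : y ∈ e s₀ '' U₀
    · obtain ⟨x, hx, rfl⟩ := hyY
      have h1 := hy s₀ x (hUW hx) rfl s
      rw [G2 x hx, hLx, h1, hg x hx, sub_self, smul_zero, add_zero]
    · exact G3 y hyY

end

end Pool.Agent.RBN
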