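import Pool.Agent.RBN.Defs

/-!
# RBN/Wfn: the functions `wf`, `thn`   (difficulty 2)

`stp a b` is smooth, in `[0, 1]`, `0` for `x ≤ a`, `1` for `x ≥ b` (`CSG.stp_smooth` and so on; see CSG/FunBasic.lean).
`thn w₀` has the smooth inverse `(z, s) ↦ (z / wf w₀ s, s)` : `CSG.ld_of_perm`.  (Model: KNH/BxM.lean, `thn_emb`.)
-/

open scoped Manifold ContDiff Topology
open Set Filter
open Complex (I)
open Pool.Agent.CSG (stp)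
open Pool.Agent.RSG (E3 E4 S4 ex cj Thick Strand FourMove OnKnot IsRollGluck)
open Pool.Agent.RBM (ThickT TwinP OnT Box Bundle frc)

namespace Pool.Agent.RBN

theorem wf_smooth (w₀ : ℝ) : ContDiff ℝ ∞ (wf w₀) := by
  unfold wf
  apply contDiff_const.add
  apply contDiff_const.mul
  exact (CSG.stp_smooth _ _).comp (contDiff_id.pow 2)

theorem wf_mid (w₀ : ℝ) {s : ℝ} (h : |s| ≤ 1 / 4) : wf w₀ s = w₀ := by
  unfold wf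
  have h2 : (1 / 4 : ℝ) = |(1 / 4 : ℝ)| := by rw [abs_of_pos (by norm_num)]
  rw [h2, ← sq_le_sq] at h
  rw [CSG.stp_zero (by norm_num) (by linarith)]
  ring

theorem wf_end (w₀ : ℝ) {s : ℝ} (h : 1 / 2 ≤ |s|) : wf w₀ s = 1 := by
  unfold wf
  have h2 : (1 / 2 : ℝ) = |(1 / 2 : ℝ)| := by rw [abs_of_pos (by norm_num)]
  rw [h2, ← sq_le_sq] at h
  rw [CSG.stp_one (by norm_num) (by linarith)]
  ring

theorem wf_pos {w₀ : ℝ} (h0 : 0 < w₀) (h1 : w₀ ≤ 1) (s : ℝ) : 0 < wf w₀ s := by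
  unfold wf
  have h2 := CSG.stp_nonneg (1 / 16) (1 / 4) (s ^ 2)
  nlinarith [mul_nonneg (sub_nonneg.2 h1) h2]

theorem wf_ge {w₀ : ℝ} (h1 : w₀ ≤ 1) (s : ℝ) : w₀ ≤ wf w₀ s := by
  unfold wf
  have h2 := CSG.stp_nonneg (1 / 16) (1 / 4) (s ^ 2)
  nlinarith [mul_nonneg (sub_nonneg.2 h1) h2]

theorem wf_le {w₀ : ℝ} (h1 : w₀ ≤ 1) (s : ℝ) : wf w₀ s ≤ 1 := by
  unfold wf
  have h2 := CSG.stp_le_one (1 / 16) (1 / 4) (s ^ 2)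
  nlinarith [mul_nonneg (sub_nonneg.2 h1) (sub_nonneg.2 h2)]

theorem Wfn_wf2 (w₀ : ℝ) : ContDiff ℝ ∞ (fun q : ℂ × ℝ => wf w₀ q.2) := (wf_smooth w₀).comp contDiff_snd

theorem thn_smooth (w₀ : ℝ) : ContDiff ℝ ∞ (thn w₀) := by
  unfold thn
  apply ContDiff.prodMk _ contDiff_snd
  apply ContDiff.mul _ contDiff_fst
  exact Complex.ofRealCLM.contDiff.comp (Wfn_wf2 w₀)

theorem thn_end (w₀ : ℝ) {z : ℂ} {s : ℝ} (h : 1 / 2 ≤ |s|) : thn w₀ (z, s) = (z, s) := by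
  unfold thn
  simp only
  rw [wf_end w₀ h]
  simp

theorem thn_norm {w₀ : ℝ} (h0 : 0 < w₀) (h1 : w₀ ≤ 1) (q : ℂ × ℝ) : ‖(thn w₀ q).1‖ ≤ ‖q.1‖ := by
  unfold thn
  simp only
  rw [norm_mul, Complex.norm_real, Real.norm_of_nonneg (wf_pos h0 h1 _).le]
  have := wf_le h1 q.2
  nlinarith [norm_nonneg q.1]

theorem thn_inj {w₀ : ℝ} (h0 : 0 < w₀) (h1 : w₀ ≤ 1) : Function.Injective (thn w₀) := by
  intro q q' h
  unfold thn at h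
  simp only [Prod.mk.injEq] at h
  obtain ⟨h3, h4⟩ := h
  rw [h4] at h3
  have h5 : ((wf w₀ q'.2 : ℝ) : ℂ) ≠ 0 := by
    exact_mod_cast (wf_pos h0 h1 q'.2).ne'
  exact Prod.ext (mul_left_cancel₀ h5 h3) h4

/-- the inverse of `thn` -/
noncomputable def Wfn_inv (w₀ : ℝ) (q : ℂ × ℝ) : ℂ × ℝ := ((((wf w₀ q.2)⁻¹ : ℝ) : ℂ) * q.1, q.2)

theorem Wfn_inv_smooth {w₀ : ℝ} (h0 : 0 < w₀) (h1 : w₀ ≤ 1) : ContDiff ℝ ∞ (Wfn_inv w₀) := by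
  unfold Wfn_inv
  apply ContDiff.prodMk _ contDiff_snd
  apply ContDiff.mul _ contDiff_fst
  exact Complex.ofRealCLM.contDiff.comp ((Wfn_wf2 w₀).inv fun q => (wf_pos h0 h1 _).ne')

theorem Wfn_left {w₀ : ℝ} (h0 : 0 < w₀) (h1 : w₀ ≤ 1) (q : ℂ × ℝ) : Wfn_inv w₀ (thn w₀ q) = q := by
  refine Prod.ext ?_ rfl
  unfold Wfn_inv thn
  simp only
  rw [← mul_assoc, ← Complex.ofReal_mul, inv_mul_cancel₀ (wf_pos h0 h1 _).ne']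
  simp

theorem Wfn_right {w₀ : ℝ} (h0 : 0 < w₀) (h1 : w₀ ≤ 1) (q : ℂ × ℝ) : thn w₀ (Wfn_inv w₀ q) = q := by
  refine Prod.ext ?_ rfl
  unfold Wfn_inv thn
  simp only
  rw [← mul_assoc, ← Complex.ofReal_mul, mul_inv_cancel₀ (wf_pos h0 h1 _).ne']
  simp

theorem thn_ld {w₀ : ℝ} (h0 : 0 < w₀) (h1 : w₀ ≤ 1) (q : ℂ × ℝ) :
    IsLocalDiffeomorphAt 𝓘(ℝ, ℂ × ℝ) 𝓘(ℝ, ℂ × ℝ) ∞ (thn w₀) q := by
  have h := CSG.ld_of_perm (V := ℂ × ℝ) (W := ℂ × ℝ)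
    (f := ⟨thn w₀, Wfn_inv w₀, Wfn_left h0 h1, Wfn_right h0 h1⟩) (thn_smooth w₀) (Wfn_inv_smooth h0 h1) q
  exact h

/-- `((z, s), t) ↦ (thn w₀ (z, s), s / 4 + 1 / 2 + t)` -/
theorem shear_ld {w₀ : ℝ} (h0 : 0 < w₀) (h1 : w₀ ≤ 1) (q : (ℂ × ℝ) × ℝ) :
    IsLocalDiffeomorphAt 𝓘(ℝ, (ℂ × ℝ) × ℝ) 𝓘(ℝ, (ℂ × ℝ) × ℝ) ∞
      (fun q : (ℂ × ℝ) × ℝ => (thn w₀ q.1, q.1.2 / 4 + 1 / 2 + q.2)) q := by
  have hs : ContDiff ℝ ∞ (fun q : (ℂ × ℝ) × ℝ => (thn w₀ q.1, q.1.2 / 4 + 1 / 2 + q.2)) := by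
    apply ContDiff.prodMk ((thn_smooth w₀).comp contDiff_fst)
    exact ((((contDiff_snd.comp contDiff_fst).div_const 4).add contDiff_const).add contDiff_snd)
  have hs' : ContDiff ℝ ∞ (fun q : (ℂ × ℝ) × ℝ => (Wfn_inv w₀ q.1, q.2 - q.1.2 / 4 - 1 / 2)) := by
    apply ContDiff.prodMk ((Wfn_inv_smooth h0 h1).comp contDiff_fst)
    exact ((contDiff_snd.sub ((contDiff_snd.comp contDiff_fst).div_const 4)).sub contDiff_const)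
  have h := CSG.ld_of_perm (V := (ℂ × ℝ) × ℝ) (W := (ℂ × ℝ) × ℝ)
    (f := ⟨fun q => (thn w₀ q.1, q.1.2 / 4 + 1 / 2 + q.2), fun q => (Wfn_inv w₀ q.1, q.2 - q.1.2 / 4 - 1 / 2),
      fun q => by
        refine Prod.ext (Wfn_left h0 h1 q.1) ?_
        change q.1.2 / 4 + 1 / 2 + q.2 - (thn w₀ q.1).2 / 4 - 1 / 2 = q.2
        change q.1.2 / 4 + 1 / 2 + q.2 - q.1.2 / 4 - 1 / 2 = q.2
        ring,
      fun q => by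
        refine Prod.ext (Wfn_right h0 h1 q.1) ?_
        change (Wfn_inv w₀ q.1).2 / 4 + 1 / 2 + (q.2 - q.1.2 / 4 - 1 / 2) = q.2
        change q.1.2 / 4 + 1 / 2 + (q.2 - q.1.2 / 4 - 1 / 2) = q.2
        ring⟩) hs hs' q
  exact h

end Pool.Agent.RBN
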