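import Pool.Agent.RBN.Cir
import Pool.Agent.RBN.Wfn

/-!
# RBN/Bun: the thinned bundle   (difficulty 2)
-/

open scoped Manifold ContDiff Topology
open Set Filter
open Complex (I)
open Pool.Agent.CSG (stp)
open Pool.Agent.RSG (E3 E4 S4 ex cj Thick Strand FourMove OnKnot IsRollGluck)
open Pool.Agent.RBM (ThickT TwinP OnT Box Bundle frc)

namespace Pool.Agent.RBN

theorem bundle_thn {N : Type*} [TopologicalSpace N] [ChartedSpace E3 N] {κ : ℝ × ℂ → N} {β : ℂ × ℝ → N} {w₀ ε₁ ε₂ : ℝ}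
    (hκ : Thick κ) (h0 : 0 < w₀) (h1 : w₀ ≤ 1) (hε₁ : ε₁ = 1 ∨ ε₁ = -1) (hε₂ : ε₂ = 1 ∨ ε₂ = -1)
    (hld : ∀ (z : ℂ) (s : ℝ), ‖z‖ < 4 → |s| < 1 → IsLocalDiffeomorphAt 𝓘(ℝ, ℂ × ℝ) (𝓡 3) ∞ β (z, s))
    (hinj : ∀ (z : ℂ) (s : ℝ) (z' : ℂ) (s' : ℝ), ‖z‖ < 4 → |s| < 1 → ‖z'‖ < 4 → |s'| < 1 →
      β (z, s) = β (z', s') → z = z' ∧ s = s')
    (hs₁ : ∀ (l : ℝ) (v : ℂ), |l| < 1 / 16 → ‖v‖ < 1 → κ (1 / 4 + l, v) = β (thn w₀ (1 + cj ε₁ v / 2, 16 * ε₁ * l)))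
    (hs₂ : ∀ (l : ℝ) (v : ℂ), |l| < 1 / 16 → ‖v‖ < 1 → κ (3 / 4 + l, v) = β (thn w₀ (-1 + cj ε₂ v / 2, 16 * ε₂ * l)))
    (hr : ∀ (l : ℝ) (v : ℂ), ‖v‖ < 1 → (∀ k : ℤ, 1 / 16 ≤ |l - 1 / 4 - k| ∧ 1 / 16 ≤ |l - 3 / 4 - k|) →
      ∀ (z : ℂ) (s : ℝ), ‖z‖ < 4 → |s| < 1 → κ (l, v) ≠ β (z, s)) :
    Bundle IN (prd κ) (pb fun q => β (thn w₀ q)) ε₁ ε₂ := by
  have hd : ∀ (z : ℂ) (s : ℝ), ‖z‖ < 4 → ‖(thn w₀ (z, s)).1‖ < 4 := fun z s hz =>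
    (thn_norm h0 h1 (z, s)).trans_lt hz
  refine ⟨prd_thick hκ, ⟨?_, ?_, ?_⟩, hε₁, hε₂, ?_, ?_, ?_⟩
  · intro z s t
    unfold pb
    rw [circ_per]
  · intro z s t hz hs
    refine pb_ld ?_ t
    exact IsLocalDiffeomorphAt.comp (hf := thn_ld h0 h1 (z, s)) (hg := hld _ _ (hd z s hz) hs) ..
  · intro z s t z' s' t' hz hs hz' hs' he
    unfold pb at he
    simp only [Prod.mk.injEq] at he
    obtain ⟨e1, e2⟩ := hinj _ _ _ _ (hd z s hz) hs (hd z' s' hz') hs' he.1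
    have e3 : ((z, s) : ℂ × ℝ) = (z', s') := thn_inj h0 h1 (Prod.ext e1 e2)
    simp only [Prod.mk.injEq] at e3
    exact ⟨e3.1, e3.2, circ_eq.1 he.2.symm⟩
  · intro l v t hl hv
    unfold prd pb
    simp only
    rw [hs₁ l v hl hv]
  · intro l v t hl hv
    unfold prd pb
    simp only
    rw [hs₂ l v hl hv]
  · intro l v t hv hl z s t' hz hs he
    exact hr l v hv hl _ _ (hd z s hz) hs (congrArg Prod.fst he)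

end Pool.Agent.RBN
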