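import Pool.Agent.RBN.CodM
import Pool.Agent.RBN.Wfn
import Pool.Agent.RBN.Cir

/-!
# RBN/Hol: the diffeomorphism `G` (isotopy of the hole)   (difficulty 3)

(Model: KNH/HolM.lean.)  `V = (ℂ × ℝ) × ℝ`, `P = N × Circle`, `e x ((z, s), t') = (b x (thn w₀ (z, s)), circ (s / 4 + 1 / 2 + t'))`, `O = Mov b ×ˢ univ`,
`W = {‖z‖ < 7/2, |s| < 1, |t'| < 3 δ}`, `C = {‖z‖ ≤ 13/4, |s| ≤ 5/16, |t'| ≤ 2 δ}` (compact).  `cod` (CodM):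
* `hO`: `Mov b` is open: near `b x (z, s)` by `CSG.ld_image_nhds (h.loc ..)`.
* `he`: `TubeHom.smooth` composed with the smooth map `(x, ((z, s), t')) ↦ (x, thn w₀ (z, s))` (`thn_norm`: still in the domain), and `circ_smooth`.
* `hld`: `e x = (b x × circ) ∘ shear`, `shear_ld`, `RSG.ld_prodMap (h.loc ..) (circ_ld ..)`.  (Models: `(𝓘(ℝ, ℂ × ℝ)).prod 𝓘(ℝ, ℝ)` against `𝓘(ℝ, (ℂ × ℝ) × ℝ)`:
  `modelWithCornersSelf_prod`, `chartedSpaceSelf_prod`, as in `pb_ld` of RBN/Cir.)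
* (inj) on `W`, all `x ∈ [0, 1]`: `circ_eq`: `(s - s')/4 + (t' - t'') = m`, `|(s - s')/4| < 1/2`, `|t' - t''| < 6 δ < 1/8`, so `m = 0`, `|s - s'| < 24 δ`, `ThinOK.inj`.
* `hCO`: `|s| ≤ 5/16 < 3/8`, `thn` does not change `s`.
Result `F, U`.  `G = F`.  If `p.1 ∉ Mov b` then `p ∉ O`.  Let `‖z‖ ≤ 13/4`, `|s| < 1`, `|t'| ≤ 2 δ`: if `|s| ≤ 5/16` then `F (e 0 ..) = e 1 ..` by `U ⊇ C`; if `|s| > 1/4`: the
point `y = e 0 ((z, s), t')` is stationary: if `e x a = y`, `a ∈ W`, then `e x ((z, s), t') = e 0 ((z, s), t') = y` (`ends`, `thn` keeps `s`), so `a = ((z, s), t')` by (inj) and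
`e x' a = y` for all `x'`.  Hole: `1/2 - 2 δ ≤ |frc (t - s/4)|`: `t - s/4 = 1/2 + t' + k`, `|t'| ≤ 2 δ`, `k ∈ ℤ` (`frc x = x - round x`, see `HolM_frc` in KNH/HolM), so
`pb (b x ∘ thn w₀) (z, s, t) = e x ((z, s), t')` (`circ_eq`).
-/

open scoped Manifold ContDiff Topology
open Set Filter
open Complex (I)
open Pool.Agent.CSG (stp)
open Pool.Agent.RSG (E3 E4 S4 ex cj Thick Strand FourMove OnKnot IsRollGluck)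
open Pool.Agent.RBM (ThickT TwinP OnT Box Bundle frc)

namespace Pool.Agent.RBN

theorem Hol_frc {x δ : ℝ} (h : 1 / 2 - 2 * δ ≤ |frc x|) :
    ∃ (t' : ℝ) (k : ℤ), |t'| ≤ 2 * δ ∧ x = 1 / 2 + t' + k := by
  have h1 : |frc x| ≤ 1 / 2 := abs_sub_round x
  have h2 : x = frc x + round x := by
    unfold RBM.frc
    ring
  rcases le_or_gt 0 (frc x) with h3 | h3
  · rw [abs_of_nonneg h3] at h h1
    refine ⟨frc x - 1 / 2, round x, ?_, ?_⟩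
    · rw [abs_le]
      constructor <;> linarith
    · linarith
  · rw [abs_of_neg h3] at h h1
    refine ⟨frc x + 1 / 2, round x - 1, ?_, ?_⟩
    · rw [abs_le]
      constructor <;> linarith
    · push_cast
      linarith

/-- the family -/
noncomputable def Hol_e {N : Type*} (b : ℝ → ℂ × ℝ → N) (w₀ : ℝ) (x : ℝ) (q : (ℂ × ℝ) × ℝ) : N × Circle :=
  (b x (thn w₀ q.1), circ (q.1.2 / 4 + 1 / 2 + q.2))

theorem Hol_inj {N : Type*} {b : ℝ → ℂ × ℝ → N} {w₀ δ : ℝ} (hw : ThinOK b w₀ δ)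
    {x : ℝ} (hx : x ∈ Icc (0 : ℝ) 1) {q q' : (ℂ × ℝ) × ℝ}
    (hq : ‖q.1.1‖ < 7 / 2 ∧ |q.1.2| < 1 ∧ |q.2| < 3 * δ) (hq' : ‖q'.1.1‖ < 7 / 2 ∧ |q'.1.2| < 1 ∧ |q'.2| < 3 * δ)
    (he : Hol_e b w₀ x q = Hol_e b w₀ x q') : q = q' := by
  obtain ⟨a1, a2, a3⟩ := hq
  obtain ⟨b1, b2, b3⟩ := hq'
  have hd := hw.d_le
  have hd0 := hw.d_pos
  have e1 : b x (thn w₀ q.1) = b x (thn w₀ q'.1) := congrArg Prod.fst he
  have e2 : circ (q.1.2 / 4 + 1 / 2 + q.2) = circ (q'.1.2 / 4 + 1 / 2 + q'.2) := congrArg Prod.snd he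
  obtain ⟨n, hn⟩ := circ_eq.1 e2
  have a2' := abs_lt.1 a2
  have a3' := abs_lt.1 a3
  have b2' := abs_lt.1 b2
  have b3' := abs_lt.1 b3
  have hn0 : n = 0 := by
    have h1 : |(n : ℝ)| < 1 := by
      rw [abs_lt]
      constructor <;> linarith
    have h2 : |n| < 1 := by exact_mod_cast h1
    exact Int.abs_lt_one_iff.1 h2
  rw [hn0] at hn
  push_cast at hn
  have e3 : q.1 = q'.1 := by
    refine hw.inj x hx _ _ a1.le b1.le a2 b2 ?_ e1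
    rw [abs_le]
    constructor <;> linarith
  have e4 : q.1.2 = q'.1.2 := by rw [e3]
  exact Prod.ext e3 (by linarith)

theorem Hol_open {N : Type*} [TopologicalSpace N] [ChartedSpace E3 N] {b : ℝ → ℂ × ℝ → N}
    (h : TubeHom b) : IsOpen (Mov b) := by
  rw [isOpen_iff_mem_nhds]
  rintro p ⟨x, hx, z, s, hz, hs, rfl⟩
  have h1 := CSG.ld_image_nhds (h.loc x hx z s hz (by linarith)) (U := {q : ℂ × ℝ | ‖q.1‖ < 4 ∧ |q.2| < 3 / 8}) (by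
    have e1 : IsOpen {q : ℂ × ℝ | ‖q.1‖ < 4} := isOpen_lt (by fun_prop) continuous_const
    have e2 : IsOpen {q : ℂ × ℝ | |q.2| < 3 / 8} := isOpen_lt (by fun_prop) continuous_const
    exact (e1.inter e2).mem_nhds ⟨hz, hs⟩)
  refine Filter.mem_of_superset h1 ?_
  rintro _ ⟨⟨z', s'⟩, ⟨hz', hs'⟩, rfl⟩
  exact ⟨x, hx, z', s', hz', hs', rfl⟩

theorem Hol_smooth {N : Type*} [TopologicalSpace N] [ChartedSpace E3 N] {b : ℝ → ℂ × ℝ → N}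
    (h : TubeHom b) {w₀ : ℝ} (h0 : 0 < w₀) (h1 : w₀ ≤ 1) {x : ℝ} (hx : x ∈ Icc (0 : ℝ) 1) {q : (ℂ × ℝ) × ℝ}
    (hq : ‖q.1.1‖ < 4) (hq' : |q.1.2| < 1) :
    ContMDiffAt 𝓘(ℝ, ℝ × ((ℂ × ℝ) × ℝ)) IN ∞ (fun p : ℝ × ((ℂ × ℝ) × ℝ) => Hol_e b w₀ p.1 p.2) (x, q) := by
  have e1 : ContMDiffAt 𝓘(ℝ, ℝ × (ℂ × ℝ)) (𝓡 3) ∞ (fun p : ℝ × (ℂ × ℝ) => b p.1 p.2) (x, thn w₀ q.1) :=
    h.smooth x hx (thn w₀ q.1).1 (thn w₀ q.1).2 (lt_of_le_of_lt (thn_norm h0 h1 q.1) hq) hq'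
  have e2 : ContDiff ℝ ∞ (fun p : ℝ × ((ℂ × ℝ) × ℝ) => ((p.1, thn w₀ p.2.1) : ℝ × (ℂ × ℝ))) :=
    contDiff_fst.prodMk ((thn_smooth w₀).comp (contDiff_fst.comp contDiff_snd))
  have e3 : ContMDiffAt 𝓘(ℝ, ℝ × ((ℂ × ℝ) × ℝ)) 𝓘(ℝ, ℝ × (ℂ × ℝ)) ∞
      (fun p : ℝ × ((ℂ × ℝ) × ℝ) => ((p.1, thn w₀ p.2.1) : ℝ × (ℂ × ℝ))) (x, q) := e2.contDiffAt.contMDiffAt
  have e4 : ContMDiffAt 𝓘(ℝ, ℝ × ((ℂ × ℝ) × ℝ)) (𝓡 3) ∞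
      ((fun p : ℝ × (ℂ × ℝ) => b p.1 p.2) ∘ fun p : ℝ × ((ℂ × ℝ) × ℝ) => ((p.1, thn w₀ p.2.1) : ℝ × (ℂ × ℝ))) (x, q) :=
    ContMDiffAt.comp (x, q) e1 e3
  have e5 : ContDiff ℝ ∞ (fun p : ℝ × ((ℂ × ℝ) × ℝ) => p.2.1.2 / 4 + 1 / 2 + p.2.2) := by fun_prop
  have e6 : ContMDiffAt 𝓘(ℝ, ℝ × ((ℂ × ℝ) × ℝ)) (𝓡 1) ∞
      (circ ∘ fun p : ℝ × ((ℂ × ℝ) × ℝ) => p.2.1.2 / 4 + 1 / 2 + p.2.2) (x, q) :=
    ContMDiffAt.comp (x, q) (circ_smooth _) e5.contDiffAt.contMDiffAt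
  exact e4.prodMk e6

theorem Hol_ld {N : Type*} [TopologicalSpace N] [ChartedSpace E3 N] {b : ℝ → ℂ × ℝ → N}
    (h : TubeHom b) {w₀ : ℝ} (h0 : 0 < w₀) (h1 : w₀ ≤ 1) {x : ℝ} (hx : x ∈ Icc (0 : ℝ) 1) {q : (ℂ × ℝ) × ℝ}
    (hq : ‖q.1.1‖ < 4) (hq' : |q.1.2| < 1) :
    IsLocalDiffeomorphAt 𝓘(ℝ, (ℂ × ℝ) × ℝ) IN ∞ (Hol_e b w₀ x) q := by
  have e1 : IsLocalDiffeomorphAt 𝓘(ℝ, ℂ × ℝ) (𝓡 3) ∞ (b x) (thn w₀ q.1) :=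
    h.loc x hx (thn w₀ q.1).1 (thn w₀ q.1).2 (lt_of_le_of_lt (thn_norm h0 h1 q.1) hq) hq'
  have e2 : IsLocalDiffeomorphAt (𝓘(ℝ, ℂ × ℝ).prod 𝓘(ℝ, ℝ)) IN ∞
      (Prod.map (b x) circ) (thn w₀ q.1, q.1.2 / 4 + 1 / 2 + q.2) := RSG.ld_prodMap e1 (circ_ld _)
  have e3 : IsLocalDiffeomorphAt 𝓘(ℝ, (ℂ × ℝ) × ℝ) (𝓘(ℝ, ℂ × ℝ).prod 𝓘(ℝ, ℝ)) ∞
      (fun q : (ℂ × ℝ) × ℝ => (thn w₀ q.1, q.1.2 / 4 + 1 / 2 + q.2)) q := by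
    rw [← modelWithCornersSelf_prod, chartedSpaceSelf_prod]
    exact shear_ld h0 h1 q
  exact IsLocalDiffeomorphAt.comp (hf := e3) (hg := e2) ..

theorem exists_hole {N : Type*} [TopologicalSpace N] [ChartedSpace E3 N] [T2Space N] {b : ℝ → ℂ × ℝ → N}
    (h : TubeHom b) {w₀ δ : ℝ} (hw : ThinOK b w₀ δ) :
    ∃ G : Equiv.Perm (N × Circle), (∀ p, IsLocalDiffeomorphAt IN IN ∞ G p) ∧ (∀ p : N × Circle, p.1 ∉ Mov b → G p = p) ∧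
      ∀ (z : ℂ) (s t : ℝ), ‖z‖ ≤ 13 / 4 → |s| < 1 → 1 / 2 - 2 * δ ≤ |frc (t - s / 4)| →
        G (pb (fun q => b 0 (thn w₀ q)) (z, s, t)) = pb (fun q => b 1 (thn w₀ q)) (z, s, t) := by
  have hd0 := hw.d_pos
  set W : Set ((ℂ × ℝ) × ℝ) := {x | ‖x.1.1‖ < 7 / 2 ∧ |x.1.2| < 1 ∧ |x.2| < 3 * δ} with hWd
  set C : Set ((ℂ × ℝ) × ℝ) := (Metric.closedBall (0 : ℂ) (13 / 4) ×ˢ Icc (-(5 / 16) : ℝ) (5 / 16)) ×ˢ
    Icc (-(2 * δ)) (2 * δ) with hCd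
  have hC : IsCompact C := ((isCompact_closedBall _ _).prod isCompact_Icc).prod isCompact_Icc
  have hmC : ∀ x : (ℂ × ℝ) × ℝ, x ∈ C ↔ ‖x.1.1‖ ≤ 13 / 4 ∧ |x.1.2| ≤ 5 / 16 ∧ |x.2| ≤ 2 * δ := by
    intro x
    rw [hCd, mem_prod, mem_prod, mem_closedBall_zero_iff, mem_Icc, mem_Icc, ← abs_le, ← abs_le,
      and_assoc]
  have hCW : C ⊆ W := by
    intro x hx
    obtain ⟨h1, h2, h3⟩ := (hmC x).1 hx
    exact ⟨by linarith, by linarith, by linarith⟩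
  have hW : IsOpen W := by
    have h1 : IsOpen {x : (ℂ × ℝ) × ℝ | ‖x.1.1‖ < 7 / 2} := isOpen_lt (by fun_prop) continuous_const
    have h2 : IsOpen {x : (ℂ × ℝ) × ℝ | |x.1.2| < 1} := isOpen_lt (by fun_prop) continuous_const
    have h3 : IsOpen {x : (ℂ × ℝ) × ℝ | |x.2| < 3 * δ} := isOpen_lt (by fun_prop) continuous_const
    exact h1.inter (h2.inter h3)
  have hfixend : ∀ x ∈ Icc (0 : ℝ) 1, ∀ q : (ℂ × ℝ) × ℝ, ‖q.1.1‖ < 4 → |q.1.2| < 1 → 1 / 4 ≤ |q.1.2| →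
      Hol_e b w₀ x q = Hol_e b w₀ 0 q := by
    intro x hx q hq1 hq2 hq3
    unfold Hol_e
    have h1 := h.ends x hx (thn w₀ q.1).1 (thn w₀ q.1).2
      (lt_of_le_of_lt (thn_norm hw.w_pos hw.w_le q.1) hq1) hq2 hq3
    have h2 : b x (thn w₀ q.1) = b 0 (thn w₀ q.1) := h1
    rw [h2]
  obtain ⟨F, Uo, hF1, hF2, -, hCU, hFU, hst⟩ := cod (IP := IN) hW (e := Hol_e b w₀)
    (fun x hx q hq => Hol_smooth h hw.w_pos hw.w_le hx (by linarith [hq.1]) hq.2.1) hC hCW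
    (fun x hx q hq => Hol_ld h hw.w_pos hw.w_le hx (by linarith [(hCW hq).1]) (hCW hq).2.1)
    (fun x hx q hq q' hq' he => Hol_inj hw hx (hCW hq) (hCW hq') he)
    (O := Mov b ×ˢ (univ : Set Circle)) ((Hol_open h).prod isOpen_univ)
    (by
      intro x hx q hq
      obtain ⟨h1, h2, -⟩ := (hmC q).1 hq
      refine mem_prod.2 ⟨⟨x, hx, (thn w₀ q.1).1, (thn w₀ q.1).2, ?_, ?_, rfl⟩, mem_univ _⟩
      · exact lt_of_le_of_lt (thn_norm hw.w_pos hw.w_le q.1) (by linarith)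
      · show |q.1.2| < 3 / 8
        linarith)
  have hFe : ∀ q : (ℂ × ℝ) × ℝ, ‖q.1.1‖ ≤ 13 / 4 → |q.1.2| < 1 → |q.2| ≤ 2 * δ →
      F (Hol_e b w₀ 0 q) = Hol_e b w₀ 1 q := by
    intro q h1 h2 h3
    rcases le_or_gt |q.1.2| (5 / 16) with h4 | h4
    · exact hFU q (hCU ((hmC q).2 ⟨h1, h4, h3⟩))
    · have hqW : q ∈ W := ⟨by linarith, h2, by linarith⟩
      have hq4 : ‖q.1.1‖ < 4 := by linarith
      have hq5 : 1 / 4 ≤ |q.1.2| := by linarith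
      rw [hfixend 1 ⟨zero_le_one, le_rfl⟩ q hq4 h2 hq5]
      apply hst
      intro x hx q' hq' he x' hx'
      rw [← hfixend x hx q hq4 h2 hq5] at he
      have e1 : q' = q := Hol_inj hw hx hq' hqW he
      rw [e1, hfixend x' hx' q hq4 h2 hq5]
  refine ⟨F, hF1, ?_, ?_⟩
  · intro p hp
    exact hF2 p fun hh => hp (mem_prod.1 hh).1
  · intro z s t hz hs ht
    obtain ⟨t', k, h1, h2⟩ := Hol_frc ht
    have e0 : ∀ x : ℝ, pb (fun q => b x (thn w₀ q)) (z, s, t) = Hol_e b w₀ x ((z, s), t') := by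
      intro x
      refine Prod.ext rfl ?_
      show circ t = circ (s / 4 + 1 / 2 + t')
      exact circ_eq.2 ⟨k, by linarith⟩
    rw [e0, e0]
    exact hFe ((z, s), t') hz hs h1

end Pool.Agent.RBN
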