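import Pool.Agent.RBN.CodS
import Pool.Agent.RBN.Wfn

/-!
# RBN/ThnD: the thinning diffeomorphism of `N`   (difficulty 2)

`ISO.cod0` with `V = E = ℂ × ℝ`, `Λ = Λ' = ⊥` (`ISO.Lat ⊥`: the set is contained in `{0}`), `O = {‖z‖ < 4, |s| < 1}`, `W = univ`, `C = {‖z‖ ≤ 3/2} × [-1/2, 1/2]`,
`e x (z, s) = ((1 - x + x * wf w₀ s) * z, s)` (the factor is positive for `x ∈ [0, 1]`; the derivative is bijective: `e x` has a smooth left inverse
`(z, s) ↦ (z / factor, s)` near the point, or compute).  `Ψ` with `Move ⊥ O Ψ`, `Ψ (z, s) = thn w₀ (z, s)` on `C`, and for `|s| ≥ 1/2` the points are stationary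
(`wf_end`), so `Ψ (z, s) = (z, s) = thn w₀ (z, s)` (`thn_end`).  (Model: KNH/ThnQ.lean.)
`ext_perm` (`β` on `O`, `Λ = ⊥`) gives `F : Equiv.Perm N`; with `ld_symm` it is a `Diffeomorph` (`IsLocalDiffeomorphAt.contMDiffAt`).
-/

open scoped Manifold ContDiff Topology
open Set Filter
open Complex (I)
open Pool.Agent.CSG (stp)
open Pool.Agent.RSG (E3 E4 S4 ex cj Thick Strand FourMove OnKnot IsRollGluck)
open Pool.Agent.RBM (ThickT TwinP OnT Box Bundle frc)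

namespace Pool.Agent.RBN

theorem ThnD_fd {f g : ℂ × ℝ → ℂ × ℝ} {x : ℂ × ℝ} (hf : DifferentiableAt ℝ f x)
    (hg : DifferentiableAt ℝ g (f x)) (h : ∀ y, g (f y) = y) : Function.Bijective (fderiv ℝ f x) := by
  have h1 : HasFDerivAt (fun y => g (f y)) ((fderiv ℝ g (f x)).comp (fderiv ℝ f x)) x :=
    hg.hasFDerivAt.comp x hf.hasFDerivAt
  have h2 : HasFDerivAt (fun y : ℂ × ℝ => g (f y)) (ContinuousLinearMap.id ℝ (ℂ × ℝ)) x := by
    have : (fun y : ℂ × ℝ => g (f y)) = id := funext h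
    rw [this]
    exact hasFDerivAt_id x
  have h3 := h1.unique h2
  have hi : Function.Injective (fderiv ℝ f x) := by
    intro v w hvw
    have e1 := congrArg (fun L : (ℂ × ℝ) →L[ℝ] (ℂ × ℝ) => L v) h3
    have e2 := congrArg (fun L : (ℂ × ℝ) →L[ℝ] (ℂ × ℝ) => L w) h3
    simp only [ContinuousLinearMap.comp_apply, ContinuousLinearMap.id_apply] at e1 e2
    rw [← e1, ← e2, hvw]
  refine ⟨hi, ?_⟩
  have := LinearMap.injective_iff_surjective (f := (fderiv ℝ f x : (ℂ × ℝ) →ₗ[ℝ] (ℂ × ℝ)))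
  exact this.1 hi

/-- the open set of the chart -/
def ThnD_O : Set (ℂ × ℝ) := {q | ‖q.1‖ < 4 ∧ |q.2| < 1}

theorem ThnD_O_open : IsOpen ThnD_O :=
  (isOpen_lt (continuous_fst.norm) continuous_const).inter (isOpen_lt (continuous_snd.abs) continuous_const)

/-- the isotopy -/
theorem ThnD_move {w₀ : ℝ} (h0 : 0 < w₀) (h1 : w₀ ≤ 1) :
    ∃ Ψ : Equiv.Perm (ℂ × ℝ), ISO.Move ⊥ ThnD_O Ψ ∧ ∀ (z : ℂ) (s : ℝ), ‖z‖ ≤ 3 / 2 → |s| < 1 →
      Ψ (z, s) = thn w₀ (z, s) := by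
  have hfp : ∀ s ∈ Icc (0 : ℝ) 1, ∀ u, 0 < 1 - s + s * wf w₀ u := by
    intro s hs u
    have h2 := wf_pos h0 h1 u
    rcases hs.1.eq_or_lt with h | h
    · rw [← h]; norm_num
    · have := mul_pos h h2
      linarith [hs.2]
  have hfle : ∀ s ∈ Icc (0 : ℝ) 1, ∀ u, 1 - s + s * wf w₀ u ≤ 1 := by
    intro s hs u
    have h2 := wf_le h1 u
    have := mul_le_mul_of_nonneg_left h2 hs.1
    linarith
  let e : ℝ → ℂ × ℝ → ℂ × ℝ := fun s q => (((1 - s + s * wf w₀ q.2 : ℝ) : ℂ) * q.1, q.2)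
  have hes : ContDiff ℝ ∞ fun q : ℝ × (ℂ × ℝ) => e q.1 q.2 := by
    have a1 : ContDiff ℝ ∞ fun q : ℝ × (ℂ × ℝ) => (1 - q.1 + q.1 * wf w₀ q.2.2 : ℝ) :=
      (contDiff_const.sub contDiff_fst).add (contDiff_fst.mul ((wf_smooth w₀).comp
        (contDiff_snd.comp contDiff_snd)))
    exact ((Complex.ofRealCLM.contDiff.comp a1).mul (contDiff_fst.comp contDiff_snd)).prodMk
      (contDiff_snd.comp contDiff_snd)
  let g : ℝ → ℂ × ℝ → ℂ × ℝ := fun s q => ((((1 - s + s * wf w₀ q.2)⁻¹ : ℝ) : ℂ) * q.1, q.2)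
  have hgs : ∀ s ∈ Icc (0 : ℝ) 1, ContDiff ℝ ∞ (g s) := by
    intro s hs
    have a1 : ContDiff ℝ ∞ fun q : ℂ × ℝ => ((1 - s + s * wf w₀ q.2)⁻¹ : ℝ) :=
      (contDiff_const.add (contDiff_const.mul ((wf_smooth w₀).comp contDiff_snd))).inv
        fun q => (hfp s hs q.2).ne'
    exact ((Complex.ofRealCLM.contDiff.comp a1).mul contDiff_fst).prodMk contDiff_snd
  have hge : ∀ s ∈ Icc (0 : ℝ) 1, ∀ q, g s (e s q) = q := by
    intro s hs q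
    have h2 := (hfp s hs q.2).ne'
    apply Prod.ext
    · show (((1 - s + s * wf w₀ q.2)⁻¹ : ℝ) : ℂ) * (((1 - s + s * wf w₀ q.2 : ℝ) : ℂ) * q.1) = q.1
      rw [← mul_assoc, ← Complex.ofReal_mul, inv_mul_cancel₀ h2, Complex.ofReal_one, one_mul]
    · rfl
  have hC : IsCompact (Metric.closedBall (0 : ℂ) (3 / 2) ×ˢ Icc (-(1 / 2) : ℝ) (1 / 2)) :=
    (isCompact_closedBall _ _).prod isCompact_Icc
  obtain ⟨Ψ, U, hM, -, hCU, hΨ, hfix⟩ := ISO.cod0 (Λ := (⊥ : AddSubgroup (ℂ × ℝ)))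
    (Λ' := (⊥ : AddSubgroup (ℂ × ℝ))) (O := ThnD_O) (W := univ) (e := e)
    (C := (Metric.closedBall (0 : ℂ) (3 / 2) ×ˢ Icc (-(1 / 2) : ℝ) (1 / 2)))
    (by
      intro R
      apply (Set.finite_singleton (0 : ℂ × ℝ)).subset
      rintro m ⟨hm, -⟩
      exact AddSubgroup.mem_bot.1 hm) ThnD_O_open isOpen_univ (fun _ _ _ _ => mem_univ _)
    (fun s _ x _ => hes.contDiffAt)
    (by
      intro m hm
      refine ⟨0, AddSubgroup.zero_mem _, fun s _ x _ => ?_⟩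
      rw [AddSubgroup.mem_bot.1 hm, add_zero, add_zero]) hC (subset_univ _)
    (by
      intro s hs x _
      have a1 : ContDiff ℝ ∞ (e s) := hes.comp (contDiff_const.prodMk contDiff_id)
      exact ThnD_fd (a1.differentiable (by simp) x) ((hgs s hs).differentiable (by simp) _) (hge s hs))
    (by
      intro s hs x _ x' _ m hm h
      refine ⟨0, AddSubgroup.zero_mem _, ?_⟩
      rw [AddSubgroup.mem_bot.1 hm, add_zero] at h
      rw [add_zero, ← hge s hs x, h, hge s hs x'])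
    (by
      rintro s hs ⟨z, u⟩ ⟨hz, hu⟩
      have hz : z ∈ Metric.closedBall (0 : ℂ) (3 / 2) := hz
      have hu : u ∈ Icc (-(1 / 2) : ℝ) (1 / 2) := hu
      rw [mem_closedBall_zero_iff] at hz
      refine ⟨?_, ?_⟩
      · show ‖((1 - s + s * wf w₀ u : ℝ) : ℂ) * z‖ < 4
        rw [norm_mul, Complex.norm_real, Real.norm_eq_abs, abs_of_pos (hfp s hs u)]
        have := hfle s hs u
        have h3 : (1 - s + s * wf w₀ u) * ‖z‖ ≤ 1 * (3 / 2) :=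
          mul_le_mul this hz (norm_nonneg _) zero_le_one
        linarith
      · show |u| < 1
        rw [abs_lt]
        constructor <;> linarith [hu.1, hu.2])
  refine ⟨Ψ, hM, ?_⟩
  intro z u hz hu1
  rcases le_total |u| (1 / 2) with hu | hu
  · have hmem : ((z, u) : ℂ × ℝ) ∈ Metric.closedBall (0 : ℂ) (3 / 2) ×ˢ Icc (-(1 / 2) : ℝ) (1 / 2) := by
      refine ⟨?_, abs_le.1 hu⟩
      show z ∈ Metric.closedBall (0 : ℂ) (3 / 2)
      rw [mem_closedBall_zero_iff]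
      exact hz
    have h2 := hΨ _ (hCU hmem)
    have e0 : e 0 (z, u) = (z, u) := by
      show ((((1 - 0 + 0 * wf w₀ u : ℝ) : ℂ) * z, u) : ℂ × ℝ) = (z, u)
      simp
    have e1 : e 1 (z, u) = thn w₀ (z, u) := by
      show ((((1 - 1 + 1 * wf w₀ u : ℝ) : ℂ) * z, u) : ℂ × ℝ) = ((wf w₀ u : ℂ) * z, u)
      simp
    rw [e0, e1] at h2
    exact h2
  · have hw1 := wf_end w₀ hu
    rw [thn_end w₀ hu]
    apply hfix
    intro s _ x _ m hm h s' _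
    rw [AddSubgroup.mem_bot.1 hm, add_zero] at h ⊢
    have h2 : x.2 = u := congrArg Prod.snd h
    have h3 : ((1 - s + s * wf w₀ x.2 : ℝ) : ℂ) * x.1 = z := congrArg Prod.fst h
    rw [h2, hw1] at h3
    apply Prod.ext
    · show ((1 - s' + s' * wf w₀ x.2 : ℝ) : ℂ) * x.1 = z
      rw [h2, hw1, ← h3]
      norm_num
    · exact h2

theorem exists_thnD {N : Type*} [TopologicalSpace N] [ChartedSpace E3 N] [T2Space N] {β : ℂ × ℝ → N}
    (hld : ∀ (z : ℂ) (s : ℝ), ‖z‖ < 4 → |s| < 1 → IsLocalDiffeomorphAt 𝓘(ℝ, ℂ × ℝ) (𝓡 3) ∞ β (z, s))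
    (hinj : ∀ (z : ℂ) (s : ℝ) (z' : ℂ) (s' : ℝ), ‖z‖ < 4 → |s| < 1 → ‖z'‖ < 4 → |s'| < 1 →
      β (z, s) = β (z', s') → z = z' ∧ s = s') {w₀ : ℝ} (h0 : 0 < w₀) (h1 : w₀ ≤ 1) :
    ∃ F : N ≃ₘ⟮𝓡 3, 𝓡 3⟯ N, (∀ (z : ℂ) (s : ℝ), ‖z‖ ≤ 3 / 2 → |s| < 1 → F (β (z, s)) = β (thn w₀ (z, s))) ∧
      ∀ p, (∀ (z : ℂ) (s : ℝ), ‖z‖ < 4 → |s| < 1 → p ≠ β (z, s)) → F p = p := by
  obtain ⟨Ψ, hM, hΨ⟩ := ThnD_move h0 h1
  obtain ⟨Γ, g1, g2, g3⟩ := ext_perm (IP := 𝓡 3) (P := N) (Λ := (⊥ : AddSubgroup (ℂ × ℝ))) (β := β) (O := ThnD_O)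
    ThnD_O_open
    (by
      intro x hx m hm
      rw [AddSubgroup.mem_bot.1 hm, add_zero]
      exact hx)
    (by
      intro x hx m hm
      rw [AddSubgroup.mem_bot.1 hm, add_zero])
    (by
      rintro ⟨z, s⟩ ⟨hz, hs⟩
      exact hld z s hz hs)
    (by
      rintro ⟨z, s⟩ ⟨hz, hs⟩ ⟨z', s'⟩ ⟨hz', hs'⟩ he
      obtain ⟨e1, e2⟩ := hinj z s z' s' hz hs hz' hs' he
      refine ⟨0, AddSubgroup.zero_mem _, ?_⟩
      rw [add_zero, e1, e2]) hM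
  refine ⟨⟨Γ, fun p => (g1 p).contMDiffAt, fun p => (ld_symm g1 p).contMDiffAt⟩, ?_, ?_⟩
  · intro z s hz hs
    have hm : ((z, s) : ℂ × ℝ) ∈ ThnD_O := ⟨lt_of_le_of_lt hz (by norm_num), hs⟩
    have h2 := g2 (z, s) hm
    rw [hΨ z s hz hs] at h2
    exact h2
  · intro p hp
    refine g3 p ?_
    rintro ⟨⟨z, s⟩, ⟨hz, hs⟩, rfl⟩
    exact hp z s hz hs rfl

end Pool.Agent.RBN
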