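import Pool.Agent.RBN.Thin
import Pool.Agent.RBN.ThnD
import Pool.Agent.RBN.Hol
import Pool.Agent.RBN.Bun

/-!
# RBN/Rib: a ribbon homotopy does not change the roll-Gluck manifolds (assembly, complete)
-/

open scoped Manifold ContDiff Topology
open Set Filter
open Complex (I)
open Pool.Agent.CSG (stp)
open Pool.Agent.RSG (E3 E4 S4 ex cj Thick Strand FourMove OnKnot IsRollGluck)
open Pool.Agent.RBM (ThickT TwinP OnT Box Bundle frc)

namespace Pool.Agent.RBN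

section
variable {P : Type*} [TopologicalSpace P] {EP : Type*} [NormedAddCommGroup EP] [NormedSpace ℝ EP] {HP : Type*}
  [TopologicalSpace HP] {J : ModelWithCorners ℝ EP HP} [ChartedSpace HP P]

theorem ribHom_symm {κ κ' : ℝ × ℂ × ℝ → P} {b b' : ℂ × ℝ × ℝ → P} {ε₁ ε₂ : ℝ} {τ : ℝ → ℝ} {δ : ℝ} {G : Equiv.Perm P}
    (h : RBH.RibHom J κ κ' b b' ε₁ ε₂ τ δ G) : RBH.RibHom J κ' κ b' b ε₁ ε₂ τ δ G.symm := by
  refine ⟨h.bun', h.bun, h.tau, h.pos, ld_symm h.G_ld, ?_, ?_, ?_⟩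
  · intro l v t hv hl
    rw [Equiv.symm_apply_eq]
    exact (h.G_rest l v t hv hl).symm
  · intro z s t hz h1 h2
    rw [Equiv.symm_apply_eq]
    exact (h.G_ends z s t hz h1 h2).symm
  · intro z s t hz h1 h2
    rw [Equiv.symm_apply_eq]
    exact (h.G_hole z s t hz h1 h2).symm

end

variable {N : Type*} [TopologicalSpace N] [ChartedSpace E3 N] [T2Space N]
  {X : Type*} [TopologicalSpace X] [ChartedSpace E4 X] [T2Space X]

theorem diffeo_iff {κ : ℝ × ℂ → N} (F : N ≃ₘ⟮𝓡 3, 𝓡 3⟯ N) {n j : ℤ} :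
    IsRollGluck κ n j X ↔ IsRollGluck (F ∘ κ) n j X := by
  constructor
  · rintro ⟨D⟩; exact RSG.diffeo_data D F
  · rintro ⟨D⟩
    have h := RSG.diffeo_data D F.symm
    have e : (F.symm : N → N) ∘ (F ∘ κ) = κ := by
      funext q
      simp
    rw [e] at h
    exact h

theorem thick_comp {κ : ℝ × ℂ → N} (h : Thick κ) (Φ : N ≃ₘ⟮𝓡 3, 𝓡 3⟯ N) : Thick (Φ ∘ κ) := by
  refine ⟨fun l v => ?_, fun l v hv => ?_, fun l v l' v' hv hv' he => ?_⟩
  · show Φ (κ (l + 1, v)) = Φ (κ (l, v))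
    rw [h.per]
  · exact IsLocalDiffeomorphAt.comp (hf := h.loc l v hv) (hg := Φ.isLocalDiffeomorph _) ..
  · exact h.inj l v l' v' hv hv' (Φ.injective he)

theorem Rib_nm {δ ε : ℝ} (hδ : |δ| = 1) (hε : ε = 1 ∨ ε = -1) {v : ℂ} (hv : ‖v‖ < 1) : ‖(δ : ℂ) + cj ε v / 2‖ ≤ 3 / 2 := by
  refine (norm_add_le _ _).trans ?_
  rw [norm_div, RSG.cj_norm hε]
  simp only [Complex.norm_real, Real.norm_eq_abs, Complex.norm_ofNat]
  rw [hδ]
  linarith

theorem Rib_s {ε l : ℝ} (hε : ε = 1 ∨ ε = -1) (hl : |l| < 1 / 16) : |16 * ε * l| < 1 := by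
  rcases hε with rfl | rfl
  · rw [abs_lt] at hl ⊢
    constructor <;> linarith
  · rw [abs_lt] at hl ⊢
    constructor <;> linarith

theorem ribbon_iff {κ κ' : ℝ × ℂ → N} (n j : ℤ) (h : RibbonMove κ κ') :
    IsRollGluck κ n j X ↔ IsRollGluck κ' n j X := by
  obtain ⟨b, ε₁, ε₂, h⟩ := h
  have i0 : (0 : ℝ) ∈ Icc (0 : ℝ) 1 := ⟨le_rfl, zero_le_one⟩
  have i1 : (1 : ℝ) ∈ Icc (0 : ℝ) 1 := ⟨zero_le_one, le_rfl⟩
  obtain ⟨w₀, δ, hw⟩ := exists_thin h.tube
  obtain ⟨F, hF, hF'⟩ := exists_thnD (h.tube.loc 0 i0) h.tube.inj₀ hw.w_pos hw.w_le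
  obtain ⟨F', hG, hG'⟩ := exists_thnD (h.tube.loc 1 i1) h.tube.inj₁ hw.w_pos hw.w_le
  obtain ⟨G, g1, g2, g3⟩ := exists_hole h.tube hw
  -- the fixed part
  have hfix : ∀ (l : ℝ) (v : ℂ), ‖v‖ < 1 → (∀ k : ℤ, 1 / 16 ≤ |l - 1 / 4 - k| ∧ 1 / 16 ≤ |l - 3 / 4 - k|) →
      F (κ (l, v)) = κ (l, v) ∧ F' (κ' (l, v)) = κ (l, v) := by
    intro l v hv hl
    obtain ⟨e1, e2⟩ := h.rest l v hv hl
    refine ⟨hF' _ fun z s hz hs => e2 0 i0 z s hz hs, ?_⟩
    rw [e1]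
    exact hG' _ fun z s hz hs => e2 1 i1 z s hz hs
  have hb0 : Bundle IN (prd (F ∘ κ)) (pb fun q => b 0 (thn w₀ q)) ε₁ ε₂ := by
    refine bundle_thn (thick_comp h.thick F) hw.w_pos hw.w_le h.sign₁ h.sign₂ (h.tube.loc 0 i0) h.tube.inj₀ ?_ ?_ ?_
    · intro l v hl hv
      have e := h.strand₁ l v hl hv
      have e' : κ (1 / 4 + l, v) = b 0 (1 + cj ε₁ v / 2, 16 * ε₁ * l) := by
        rw [show (1 / 4 + l : ℝ) = 1 / 2 - 1 / 4 + l by ring, e]
        norm_num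
      show F (κ (1 / 4 + l, v)) = _
      rw [e']
      refine hF _ _ ?_ (Rib_s h.sign₁ hl)
      have := Rib_nm (δ := 1) (by norm_num) h.sign₁ hv
      simpa using this
    · intro l v hl hv
      have e := h.strand₂ l v hl hv
      have e' : κ (3 / 4 + l, v) = b 0 (-1 + cj ε₂ v / 2, 16 * ε₂ * l) := by
        rw [show (3 / 4 + l : ℝ) = 1 / 2 - (-1) / 4 + l by ring, e]
        norm_num
      show F (κ (3 / 4 + l, v)) = _
      rw [e']
      refine hF _ _ ?_ (Rib_s h.sign₂ hl)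
      have := Rib_nm (δ := -1) (by norm_num) h.sign₂ hv
      simpa using this
    · intro l v hv hl z s hz hs
      show F (κ (l, v)) ≠ _
      rw [(hfix l v hv hl).1]
      exact (h.rest l v hv hl).2 0 i0 z s hz hs
  have hb1 : Bundle IN (prd (F' ∘ κ')) (pb fun q => b 1 (thn w₀ q)) ε₁ ε₂ := by
    refine bundle_thn (thick_comp h.thick' F') hw.w_pos hw.w_le h.sign₁ h.sign₂ (h.tube.loc 1 i1) h.tube.inj₁ ?_ ?_ ?_
    · intro l v hl hv
      have e := h.strand₁' l v hl hv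
      have e' : κ' (1 / 4 + l, v) = b 1 (1 + cj ε₁ v / 2, 16 * ε₁ * l) := by
        rw [show (1 / 4 + l : ℝ) = 1 / 2 - 1 / 4 + l by ring, e]
        norm_num
      show F' (κ' (1 / 4 + l, v)) = _
      rw [e']
      refine hG _ _ ?_ (Rib_s h.sign₁ hl)
      have := Rib_nm (δ := 1) (by norm_num) h.sign₁ hv
      simpa using this
    · intro l v hl hv
      have e := h.strand₂' l v hl hv
      have e' : κ' (3 / 4 + l, v) = b 1 (-1 + cj ε₂ v / 2, 16 * ε₂ * l) := by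
        rw [show (3 / 4 + l : ℝ) = 1 / 2 - (-1) / 4 + l by ring, e]
        norm_num
      show F' (κ' (3 / 4 + l, v)) = _
      rw [e']
      refine hG _ _ ?_ (Rib_s h.sign₂ hl)
      have := Rib_nm (δ := -1) (by norm_num) h.sign₂ hv
      simpa using this
    · intro l v hv hl z s hz hs
      show F' (κ' (l, v)) ≠ _
      rw [(hfix l v hv hl).2]
      exact (h.rest l v hv hl).2 1 i1 z s hz hs
  have hRH : RBH.RibHom IN (prd (F ∘ κ)) (prd (F' ∘ κ')) (pb fun q => b 0 (thn w₀ q)) (pb fun q => b 1 (thn w₀ q))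
      ε₁ ε₂ (fun s => s / 4) δ G := by
    refine ⟨hb0, hb1, by fun_prop, hw.d_pos, g1, ?_, ?_, ?_⟩
    · intro l v t hv hl
      have e0 : prd (F ∘ κ) (l, v, t) = (κ (l, v), circ t) := Prod.ext (hfix l v hv hl).1 rfl
      have e1 : prd (F' ∘ κ') (l, v, t) = (κ (l, v), circ t) := Prod.ext (hfix l v hv hl).2 rfl
      rw [e0, e1]
      refine g2 _ ?_
      rintro ⟨x, hx, z, s, hz, hs, he⟩
      exact (h.rest l v hv hl).2 x hx z s hz (by linarith) he
    · intro z s t hz h1 h2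
      have e0 : pb (fun q => b 0 (thn w₀ q)) (z, s, t) = (b 0 (z, s), circ t) := by
        unfold pb
        simp only
        rw [thn_end w₀ h1]
      have e1 : pb (fun q => b 1 (thn w₀ q)) (z, s, t) = (b 0 (z, s), circ t) := by
        unfold pb
        simp only
        rw [thn_end w₀ h1, h.tube.ends 1 i1 z s hz h2 (by linarith)]
      rw [e0, e1]
      refine g2 _ ?_
      rintro ⟨x, hx, z', s', hz', hs', he⟩
      have he : b 0 (z, s) = b x (z', s') := he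
      rcases le_or_gt |s'| (1 / 4) with h3 | h3
      · exact h.tube.sep x hx z' s' z s hz' h3 hz h1 h2 he.symm
      · rw [h.tube.ends x hx z' s' hz' (by linarith) h3.le] at he
        obtain ⟨-, e⟩ := h.tube.inj₀ _ _ _ _ hz h2 hz' (by linarith) he
        rw [e] at h1
        linarith
    · intro z s t hz hs ht
      exact g3 z s t hz hs ht
  rw [diffeo_iff F, diffeo_iff (κ := κ') F', ← dic, ← dic]
  exact ⟨fun hX => RBH.rbh hRH n j hX, fun hX => RBH.rbh (ribHom_symm hRH) n j hX⟩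

end Pool.Agent.RBN
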