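import Pool.Agent.RBN.Nbh
import Pool.Agent.RBN.Wfn

/-!
# RBN/Thin: thin ribbons   (difficulty 3)

(Model: KNH/UlM.lean.)  (1) There is `ρ > 0` such that for `x ∈ [0, 1]`, `q, q' ∈ Q = {‖z‖ ≤ 7/2, |s| ≤ 1/2}`, `‖q - q'‖ < ρ`, `b x q = b x q'` we have `q = q'`:
`fam_inj` at every `(x₀, q₀)`, `x₀ ∈ [0, 1]`, `q₀ ∈ Q`; compactness of `[0, 1] × Q` (`lebesgue_number_lemma_of_metric`).
(2) `w₀ = min 1 (ρ / 32)`, `δ ≤ 1/1024`, `δ ≤ ρ / 100` and so small that `stp (1/16) (1/4) (s²) ≤ ρ / 32` for `|s| ≤ 1/4 + 24 δ` (continuity).  Let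
`b x (thn w₀ q) = b x (thn w₀ q')`, `|q.2 - q'.2| ≤ 24 δ`.  If `|q.2|, |q'.2| ≥ 1/4`: `b x = b 0` at both points (`ends`), `inj₀`, `thn_inj`.  Otherwise both are
`≤ 1/4 + 24 δ ≤ 1/2`, `wf w₀ ≤ w₀ + ρ / 32 ≤ ρ / 16` at both, so the first components of `thn w₀ q, thn w₀ q'` have norm `≤ (7/2) (ρ / 16)` and the distance of the two
points is `< ρ`; they are in `Q`: `thn w₀ q = thn w₀ q'`, `thn_inj`.
-/

open scoped Manifold ContDiff Topology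
open Set Filter
open Complex (I)
open Pool.Agent.CSG (stp)
open Pool.Agent.RSG (E3 E4 S4 ex cj Thick Strand FourMove OnKnot IsRollGluck)
open Pool.Agent.RBM (ThickT TwinP OnT Box Bundle frc)

namespace Pool.Agent.RBN

/-- uniform local injectivity -/
theorem Thin_unif {N : Type*} [TopologicalSpace N] [ChartedSpace E3 N] {b : ℝ → ℂ × ℝ → N} (h : TubeHom b) :
    ∃ ρ : ℝ, 0 < ρ ∧ ∀ x ∈ Icc (0 : ℝ) 1, ∀ q q' : ℂ × ℝ, ‖q.1‖ ≤ 7 / 2 → |q.2| ≤ 1 / 2 →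
      dist q q' < ρ → b x q = b x q' → q = q' := by
  have hK : IsCompact (Icc (0 : ℝ) 1 ×ˢ (Metric.closedBall (0 : ℂ) (7 / 2) ×ˢ Icc (-(1 / 2) : ℝ) (1 / 2))) :=
    isCompact_Icc.prod ((isCompact_closedBall 0 (7 / 2)).prod isCompact_Icc)
  have hloc : ∀ p : ℝ × (ℂ × ℝ), ∃ u : Set (ℝ × (ℂ × ℝ)), IsOpen u ∧
      (p.1 ∈ Icc (0 : ℝ) 1 → ‖p.2.1‖ < 4 → |p.2.2| < 1 → p ∈ u) ∧
      ∀ x q q', (x, q) ∈ u → (x, q') ∈ u → b x q = b x q' → q = q' := by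
    intro p
    by_cases hp : p.1 ∈ Icc (0 : ℝ) 1 ∧ ‖p.2.1‖ < 4 ∧ |p.2.2| < 1
    · obtain ⟨U, hU, hU'⟩ := fam_inj (e := b) (x₀ := p.1) (q₀ := p.2)
        (h.smooth p.1 hp.1 p.2.1 p.2.2 hp.2.1 hp.2.2) (h.loc p.1 hp.1 p.2.1 p.2.2 hp.2.1 hp.2.2)
      obtain ⟨u, hu1, hu2, hu3⟩ := mem_nhds_iff.1 hU
      exact ⟨u, hu2, fun _ _ _ => hu3, fun x q q' h1 h2 => hU' x q q' (hu1 h1) (hu1 h2)⟩
    · exact ⟨∅, isOpen_empty, fun h0 h1 h2 => absurd ⟨h0, h1, h2⟩ hp, fun x q q' h1 => absurd h1 (by simp)⟩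
  choose u hu1 hu2 hu3 using hloc
  obtain ⟨ρ, hρ, hρ'⟩ := lebesgue_number_lemma_of_metric hK hu1 (fun p hp => by
    obtain ⟨hp1, hp2, hp3⟩ := hp
    rw [mem_closedBall_zero_iff] at hp2
    have hp4 := abs_le.2 hp3
    exact mem_iUnion.2 ⟨p, hu2 p hp1 (by linarith) (by linarith)⟩)
  refine ⟨ρ, hρ, fun l hl q q' hq1 hq2 hd he => ?_⟩
  obtain ⟨i, hi⟩ := hρ' (l, q) ⟨hl, ⟨by simpa using hq1, abs_le.1 hq2⟩⟩
  have h1 : (l, q) ∈ u i := hi (Metric.mem_ball_self hρ)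
  have h2 : (l, q') ∈ u i := by
    apply hi
    rw [Metric.mem_ball, dist_comm, Prod.dist_eq, dist_self]
    exact max_lt hρ hd
  exact hu3 i l q q' h1 h2 he

theorem Thin_s {ε : ℝ} (hε : 0 < ε) : ∃ η : ℝ, 0 < η ∧ ∀ u : ℝ, |u| < 1 / 4 + η →
    stp (1 / 16) (1 / 4) (u ^ 2) < ε := by
  have hc : ContinuousAt (fun t : ℝ => stp (1 / 16) (1 / 4) (t ^ 2)) (1 / 4) :=
    ((CSG.stp_smooth _ _).continuous.comp (continuous_pow 2)).continuousAt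
  have h0 : stp (1 / 16) (1 / 4) ((1 / 4 : ℝ) ^ 2) = 0 :=
    CSG.stp_zero (by norm_num) (by norm_num)
  have h1 : ∀ᶠ t in 𝓝 (1 / 4 : ℝ), stp (1 / 16) (1 / 4) (t ^ 2) < ε := by
    apply hc.eventually_lt continuousAt_const
    rw [h0]
    exact hε
  obtain ⟨η, hη, hη'⟩ := Metric.eventually_nhds_iff.1 h1
  refine ⟨η, hη, fun u hu => ?_⟩
  by_cases h2 : |u| ≤ 1 / 4
  · rw [CSG.stp_zero (by norm_num)]
    · exact hε
    · rw [← sq_abs]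
      have := abs_nonneg u
      nlinarith
  · rw [← sq_abs]
    apply hη'
    rw [Real.dist_eq, abs_lt]
    constructor <;> linarith

theorem exists_thin {N : Type*} [TopologicalSpace N] [ChartedSpace E3 N] {b : ℝ → ℂ × ℝ → N} (h : TubeHom b) :
    ∃ w₀ δ : ℝ, ThinOK b w₀ δ := by
  obtain ⟨ρ, hρ, H⟩ := Thin_unif h
  obtain ⟨η, hη, hη'⟩ := Thin_s (ε := ρ / 32) (by positivity)
  have hw0 : 0 < min 1 (ρ / 32) := by positivity
  have hw1 : min 1 (ρ / 32) ≤ 1 := min_le_left _ _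
  have hw2 : min 1 (ρ / 32) ≤ ρ / 32 := min_le_right _ _
  generalize min 1 (ρ / 32) = w₀ at hw0 hw1 hw2
  have hd0 : 0 < min (1 / 1024) (min (η / 48) (ρ / 100)) := by positivity
  have hd1 : min (1 / 1024) (min (η / 48) (ρ / 100)) ≤ 1 / 1024 := min_le_left _ _
  have hd2 : min (1 / 1024) (min (η / 48) (ρ / 100)) ≤ η / 48 :=
    (min_le_right _ _).trans (min_le_left _ _)
  have hd3 : min (1 / 1024) (min (η / 48) (ρ / 100)) ≤ ρ / 100 :=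
    (min_le_right _ _).trans (min_le_right _ _)
  generalize min (1 / 1024) (min (η / 48) (ρ / 100)) = δ at hd0 hd1 hd2 hd3
  have key : ∀ l ∈ Icc (0 : ℝ) 1, ∀ q q' : ℂ × ℝ, ‖q.1‖ ≤ 7 / 2 → ‖q'.1‖ ≤ 7 / 2 → |q.2 - q'.2| ≤ 24 * δ →
      |q.2| < 1 / 4 → b l (thn w₀ q) = b l (thn w₀ q') → q = q' := by
    intro l hl q q' hq hq' hd hq2 he
    have hq2' : |q'.2| ≤ 1 / 4 + 24 * δ := by
      have h1 := abs_sub_abs_le_abs_sub q'.2 q.2
      rw [abs_sub_comm] at h1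
      linarith
    have hbd : ∀ p : ℂ × ℝ, ‖p.1‖ ≤ 7 / 2 → |p.2| ≤ 1 / 4 + 24 * δ → ‖(thn w₀ p).1‖ ≤ ρ / 4 := by
      intro p hp hp2
      have h1 := hη' p.2 (by linarith)
      have h2 := CSG.stp_nonneg (1 / 16) (1 / 4) (p.2 ^ 2)
      have h3 : wf w₀ p.2 ≤ ρ / 16 := by
        unfold wf
        nlinarith
      have h4 := wf_pos hw0 hw1 p.2
      change ‖((wf w₀ p.2 : ℝ) : ℂ) * p.1‖ ≤ _
      rw [norm_mul, Complex.norm_real, Real.norm_eq_abs, abs_of_pos h4]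
      have h5 := norm_nonneg p.1
      calc wf w₀ p.2 * ‖p.1‖ ≤ (ρ / 16) * (7 / 2) := mul_le_mul h3 hp h5 (by positivity)
        _ ≤ ρ / 4 := by linarith
    have b1 := hbd q hq (by linarith)
    have b2 := hbd q' hq' hq2'
    refine thn_inj hw0 hw1 (H l hl _ _ ?_ ?_ ?_ he)
    · exact (thn_norm hw0 hw1 q).trans hq
    · change |q.2| ≤ 1 / 2
      linarith
    · rw [Prod.dist_eq]
      apply max_lt
      · rw [dist_eq_norm]
        have := norm_sub_le (thn w₀ q).1 (thn w₀ q').1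
        linarith
      · change dist q.2 q'.2 < ρ
        rw [Real.dist_eq]
        linarith
  refine ⟨w₀, δ, hw0, hw1, hd0, by linarith, ?_⟩
  intro l hl q q' hq hq' hs hs' hd he
  by_cases h1 : |q.2| < 1 / 4
  · exact key l hl q q' hq hq' hd h1 he
  · by_cases h2 : |q'.2| < 1 / 4
    · exact (key l hl q' q hq' hq (by rwa [abs_sub_comm]) h2 he.symm).symm
    · have n1 : ‖(thn w₀ q).1‖ < 4 := by
        have := thn_norm hw0 hw1 q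
        linarith
      have n2 : ‖(thn w₀ q').1‖ < 4 := by
        have := thn_norm hw0 hw1 q'
        linarith
      have h3 : b l (thn w₀ q) = b 0 (thn w₀ q) :=
        h.ends l hl (thn w₀ q).1 (thn w₀ q).2 n1 hs (not_lt.1 h1)
      have h4 : b l (thn w₀ q') = b 0 (thn w₀ q') :=
        h.ends l hl (thn w₀ q').1 (thn w₀ q').2 n2 hs' (not_lt.1 h2)
      rw [h3, h4] at he
      have h5 := h.inj₀ (thn w₀ q).1 (thn w₀ q).2 (thn w₀ q').1 (thn w₀ q').2 n1 hs n2 hs' he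
      exact thn_inj hw0 hw1 (Prod.ext h5.1 h5.2)

end Pool.Agent.RBN
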