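import Pool.Agent.RBN.CodS

/-!
# RBN/CodM: isotopy extension in codimension 0 in a manifold   (difficulty 2)

As `ISO.cod0` (ISO/Cod0.lean): `e' s = e (Real.smoothTransition s)`, the relation there are `F, U` from `e' s` to `e' s'` is transitive
(compositions: `F.trans G`, local diffeomorphisms by `IsLocalDiffeomorphAt.comp`) and symmetric (`ld_symm`), and holds for near parameters (`cod_step`), so
`isPreconnected_univ.induction₂`.
-/

open scoped Manifold ContDiff Topology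
open Set Filter
open Complex (I)
open Pool.Agent.CSG (stp)
open Pool.Agent.RSG (E3 E4 S4 ex cj Thick Strand FourMove OnKnot IsRollGluck)
open Pool.Agent.RBM (ThickT TwinP OnT Box Bundle frc)

namespace Pool.Agent.RBN

section
variable {V : Type*} [NormedAddCommGroup V] [NormedSpace ℝ V] [FiniteDimensional ℝ V]
  {EP : Type*} [NormedAddCommGroup EP] [NormedSpace ℝ EP] {HP : Type*} [TopologicalSpace HP]
  {IP : ModelWithCorners ℝ EP HP} {P : Type*} [TopologicalSpace P] [ChartedSpace HP P]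

/-- **Isotopy extension in codimension 0, in a manifold.** -/
theorem cod [T2Space P] {W : Set V} (hW : IsOpen W) {e : ℝ → V → P}
    (he : ∀ s ∈ Icc (0 : ℝ) 1, ∀ x ∈ W, ContMDiffAt 𝓘(ℝ, ℝ × V) IP ∞ (fun q : ℝ × V => e q.1 q.2) (s, x))
    {C : Set V} (hC : IsCompact C) (hCW : C ⊆ W)
    (hld : ∀ s ∈ Icc (0 : ℝ) 1, ∀ x ∈ C, IsLocalDiffeomorphAt 𝓘(ℝ, V) IP ∞ (e s) x)
    (hinj : ∀ s ∈ Icc (0 : ℝ) 1, ∀ x ∈ C, ∀ x' ∈ C, e s x = e s x' → x = x') {O : Set P} (hO : IsOpen O)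
    (hCO : ∀ s ∈ Icc (0 : ℝ) 1, ∀ x ∈ C, e s x ∈ O) :
    ∃ (F : Equiv.Perm P) (U : Set V), (∀ p, IsLocalDiffeomorphAt IP IP ∞ F p) ∧
      (∀ p, p ∉ O → F p = p) ∧ IsOpen U ∧ C ⊆ U ∧ (∀ x ∈ U, F (e 0 x) = e 1 x) ∧
      ∀ y, (∀ s ∈ Icc (0 : ℝ) 1, ∀ x ∈ W, e s x = y → ∀ s' ∈ Icc (0 : ℝ) 1, e s' x = y) → F y = y := by
  have hσ : ∀ s, Real.smoothTransition s ∈ Icc (0 : ℝ) 1 := fun s =>
    ⟨Real.smoothTransition.nonneg s, Real.smoothTransition.le_one s⟩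
  let e' : ℝ → V → P := fun s x => e (Real.smoothTransition s) x
  have he' : ∀ s, ∀ x ∈ W, ContMDiffAt 𝓘(ℝ, ℝ × V) IP ∞ (fun q : ℝ × V => e' q.1 q.2) (s, x) := by
    intro s x hx
    have e1 : ContDiffAt ℝ ∞ (fun q : ℝ × V => (Real.smoothTransition q.1, q.2)) (s, x) :=
      ((Real.smoothTransition.contDiff.comp contDiff_fst).prodMk contDiff_snd).contDiffAt
    have e2 : ContMDiffAt 𝓘(ℝ, ℝ × V) 𝓘(ℝ, ℝ × V) ∞
        (fun q : ℝ × V => (Real.smoothTransition q.1, q.2)) (s, x) := e1.contMDiffAt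
    exact ContMDiffAt.comp (s, x) (he _ (hσ s) x hx) e2
  have key := isPreconnected_univ.induction₂
    (fun s s' : ℝ => ∃ (F : Equiv.Perm P) (U : Set V), (∀ p, IsLocalDiffeomorphAt IP IP ∞ F p) ∧
      (∀ p, p ∉ O → F p = p) ∧ IsOpen U ∧ C ⊆ U ∧
      (∀ x ∈ U, F (e' s x) = e' s' x) ∧
      ∀ y, (∀ s₁, ∀ x ∈ W, e' s₁ x = y → ∀ s', e' s' x = y) → F y = y)
    (by
      intro s₀ _
      rw [nhdsWithin_univ]
      exact cod_step hW he' hC hCW s₀ (hld _ (hσ s₀)) (hinj _ (hσ s₀)) hO (hCO _ (hσ s₀)))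
    (by
      rintro s₁ s₂ s₃ - - - ⟨F, U, f0, f1, f2, f3, f4, f5⟩ ⟨G, U', g0, g1, g2, g3, g4, g5⟩
      refine ⟨F.trans G, U ∩ U', ?_, ?_, f2.inter g2, subset_inter f3 g3, ?_, ?_⟩
      · intro p
        have h1 : IsLocalDiffeomorphAt IP IP ∞ (G ∘ F) p :=
          IsLocalDiffeomorphAt.comp (hf := f0 p) (hg := g0 (F p)) ..
        exact h1
      · intro p hp
        rw [Equiv.trans_apply, f1 p hp, g1 p hp]
      · intro x hx
        rw [Equiv.trans_apply, f4 x hx.1, g4 x hx.2]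
      · intro y hy
        rw [Equiv.trans_apply, f5 y hy, g5 y hy])
    (by
      rintro s₁ s₂ - - ⟨F, U, f0, f1, f2, f3, f4, f5⟩
      refine ⟨F.symm, U, ld_symm f0, ?_, f2, f3, ?_, ?_⟩
      · intro p hp
        rw [Equiv.symm_apply_eq, f1 p hp]
      · intro x hx
        rw [Equiv.symm_apply_eq, f4 x hx]
      · intro y hy
        rw [Equiv.symm_apply_eq, f5 y hy])
    (mem_univ (0 : ℝ)) (mem_univ (1 : ℝ))
  obtain ⟨F, U, f0, f1, f2, f3, f4, f5⟩ := key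
  refine ⟨F, U, f0, f1, f2, f3, ?_, ?_⟩
  · intro x hx
    have := f4 x hx
    simp only [e', Real.smoothTransition.zero, Real.smoothTransition.one] at this
    exact this
  · intro y hy
    apply f5
    intro s₁ x hx h s'
    exact hy _ (hσ s₁) x hx h _ (hσ s')

end

end Pool.Agent.RBN
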