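import Pool.Agent.RBN.Rib

/-!
# RBN/Main: the equivalence relation
-/

open scoped Manifold ContDiff Topology
open Set Filter
open Complex (I)
open Pool.Agent.CSG (stp)
open Pool.Agent.RSG (E3 E4 S4 ex cj Thick Strand FourMove OnKnot IsRollGluck)
open Pool.Agent.RBM (ThickT TwinP OnT Box Bundle frc)

namespace Pool.Agent.RBN

universe u v

theorem equiv_iff {N : Type u} [TopologicalSpace N] [ChartedSpace E3 N] [T2Space N]
    {X : Type v} [TopologicalSpace X] [ChartedSpace E4 X] [T2Space X] {κ κ' : ℝ × ℂ → N}
    (n j : ℤ) (h : RibbonEquiv κ κ') : IsRollGluck κ n j X ↔ IsRollGluck κ' n j X := by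
  induction h with
  | ribbon h => exact ribbon_iff n j h
  | four h => exact RSG.four_move_iff n j h
  | diffeo κ F => exact diffeo_iff F
  | germ η hη h h' he =>
    constructor
    · rintro ⟨D⟩; exact RSG.germ_data hη h h' he D
    · rintro ⟨D⟩; exact RSG.germ_data hη h' h (fun l v hv => (he l v hv).symm) D
  | symm _ ih => exact ih.symm
  | trans _ _ ih1 ih2 => exact ih1.trans ih2

end Pool.Agent.RBN
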