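import Pool.Agent.RBN.Defs

/-!
# RBN/Nbh: injectivity near a compact set, and local injectivity of families   (difficulty 2)

`nbhd_inj`: `B` = the interior of `{p : V × V | f p.1 = f p.2 → p.1 = p.2}` contains `C ×ˢ C`: at `(x, x')` with `f x ≠ f x'` by `t2_separation`
and continuity (`CSG.ld_continuousAt`); at `(x, x)` by `CSG.ld_injOn`.  `generalized_tube_lemma`.  Intersect with
`interior {x | IsLocalDiffeomorphAt ..}` (`CSG.ld_eventually`) and `W ∩ f ⁻¹' O` (open: `f` is continuous on that interior).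
(Model: `Cod0_nbhd` in ISO/Cod0.lean.)

`fam_inj`: let `g = hl.localInverse` (`g (e x₀ q) = q` near `q₀`, `g` smooth at `e x₀ q₀`), `Φ (x, q) = (x, g (e x q))`, a map of `ℝ × V` which is
`ContDiffAt ℝ 1` at `(x₀, q₀)`; its derivative there is `(dx, dq) ↦ (dx, A dx + dq)` (the derivative of `q ↦ g (e x₀ q)` at `q₀` is the
identity), bijective: `ContDiffAt.hasStrictFDerivAt`, `HasStrictFDerivAt.toOpenPartialHomeomorph` (or `ContDiffAt.toOpenPartialHomeomorph`) is injective on its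
source.
-/

open scoped Manifold ContDiff Topology
open Set Filter
open Complex (I)
open Pool.Agent.CSG (stp)
open Pool.Agent.RSG (E3 E4 S4 ex cj Thick Strand FourMove OnKnot IsRollGluck)
open Pool.Agent.RBM (ThickT TwinP OnT Box Bundle frc)

namespace Pool.Agent.RBN

section
variable {V : Type*} [NormedAddCommGroup V] [NormedSpace ℝ V] [FiniteDimensional ℝ V]
  {EP : Type*} [NormedAddCommGroup EP] [NormedSpace ℝ EP] {HP : Type*} [TopologicalSpace HP]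
  {IP : ModelWithCorners ℝ EP HP} {P : Type*} [TopologicalSpace P] [ChartedSpace HP P]

theorem nbhd_inj [T2Space P] {W : Set V} (hW : IsOpen W) {f : V → P} {C : Set V} (hC : IsCompact C) (hCW : C ⊆ W)
    (hld : ∀ x ∈ C, IsLocalDiffeomorphAt 𝓘(ℝ, V) IP ∞ f x)
    (hinj : ∀ x ∈ C, ∀ x' ∈ C, f x = f x' → x = x') {O : Set P} (hO : IsOpen O) (hCO : ∀ x ∈ C, f x ∈ O) :
    ∃ U : Set V, IsOpen U ∧ C ⊆ U ∧ U ⊆ W ∧ (∀ x ∈ U, IsLocalDiffeomorphAt 𝓘(ℝ, V) IP ∞ f x) ∧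
      InjOn f U ∧ ∀ x ∈ U, f x ∈ O := by
  let B : Set (V × V) := interior {p : V × V | f p.1 = f p.2 → p.1 = p.2}
  have hCB : C ×ˢ C ⊆ B := by
    rintro ⟨x, x'⟩ ⟨hx, hx'⟩
    have hx : x ∈ C := hx
    have hx' : x' ∈ C := hx'
    rw [mem_interior_iff_mem_nhds]
    have c1 : ContinuousAt f x := CSG.ld_continuousAt (hld x hx)
    have c2 : ContinuousAt f x' := CSG.ld_continuousAt (hld x' hx')
    by_cases h : x = x'
    · subst h
      obtain ⟨N, hN, hNi⟩ := CSG.ld_injOn (hld x hx)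
      have h3 : ∀ᶠ p : V × V in 𝓝 (x, x), p.1 ∈ N := continuousAt_fst.eventually hN
      have h4 : ∀ᶠ p : V × V in 𝓝 (x, x), p.2 ∈ N := continuousAt_snd.eventually hN
      filter_upwards [h3, h4] with p p3 p4 he
      exact hNi p3 p4 he
    · have hne : f x ≠ f x' := fun he => h (hinj x hx x' hx' he)
      obtain ⟨A, A', hA, hA', hxA, hxA', hd⟩ := t2_separation hne
      have e1 : ContinuousAt (fun p : V × V => f p.1) (x, x') :=
        ContinuousAt.comp (g := f) (f := Prod.fst) (x := (x, x')) c1 continuousAt_fst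
      have e2 : ContinuousAt (fun p : V × V => f p.2) (x, x') :=
        ContinuousAt.comp (g := f) (f := Prod.snd) (x := (x, x')) c2 continuousAt_snd
      have h3 : ∀ᶠ p : V × V in 𝓝 (x, x'), f p.1 ∈ A := e1.eventually (hA.mem_nhds hxA)
      have h4 : ∀ᶠ p : V × V in 𝓝 (x, x'), f p.2 ∈ A' := e2.eventually (hA'.mem_nhds hxA')
      filter_upwards [h3, h4] with p p3 p4 he
      rw [he] at p3
      exact absurd p4 (Set.disjoint_left.1 hd p3)
  obtain ⟨U₁, U₂, hU₁, hU₂, hCU₁, hCU₂, hUB⟩ := generalized_tube_lemma hC hC isOpen_interior hCB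
  let L : Set V := interior {x | IsLocalDiffeomorphAt 𝓘(ℝ, V) IP ∞ f x}
  have hL : C ⊆ L := by
    intro x hx
    rw [mem_interior_iff_mem_nhds]
    exact CSG.ld_eventually (hld x hx)
  have hLl : ∀ x ∈ L, IsLocalDiffeomorphAt 𝓘(ℝ, V) IP ∞ f x := by
    intro x hx
    have h1 : x ∈ {x | IsLocalDiffeomorphAt 𝓘(ℝ, V) IP ∞ f x} := interior_subset hx
    exact h1
  have hcont : ContinuousOn f L := fun x hx => (CSG.ld_continuousAt (hLl x hx)).continuousWithinAt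
  have hOW : IsOpen (L ∩ f ⁻¹' O) := hcont.isOpen_inter_preimage isOpen_interior hO
  refine ⟨U₁ ∩ U₂ ∩ W ∩ (L ∩ f ⁻¹' O), ((hU₁.inter hU₂).inter hW).inter hOW, ?_, ?_, ?_, ?_, ?_⟩
  · intro x hx
    exact ⟨⟨⟨hCU₁ hx, hCU₂ hx⟩, hCW hx⟩, hL hx, hCO x hx⟩
  · exact fun x hx => hx.1.2
  · exact fun x hx => hLl x hx.2.1
  · intro x hx x' hx' he
    have h1 := interior_subset (hUB (show (x, x') ∈ U₁ ×ˢ U₂ from ⟨hx.1.1.1, hx'.1.1.2⟩))
    exact h1 he
  · exact fun x hx => hx.2.2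

theorem fam_inj {e : ℝ → V → P} {x₀ : ℝ} {q₀ : V}
    (hs : ContMDiffAt 𝓘(ℝ, ℝ × V) IP ∞ (fun q : ℝ × V => e q.1 q.2) (x₀, q₀))
    (hl : IsLocalDiffeomorphAt 𝓘(ℝ, V) IP ∞ (e x₀) q₀) :
    ∃ U ∈ 𝓝 ((x₀, q₀) : ℝ × V), ∀ x q q', (x, q) ∈ U → (x, q') ∈ U → e x q = e x q' → q = q' := by
  let Ψ : ℝ × V → V := fun q => hl.localInverse (e q.1 q.2)
  have hΨ1 : ContMDiffAt 𝓘(ℝ, ℝ × V) 𝓘(ℝ, V) ∞ Ψ (x₀, q₀) :=
    ContMDiffAt.comp (x₀, q₀) hl.localInverse_contMDiffAt hs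
  have hΨ2 : ContDiffAt ℝ ∞ Ψ (x₀, q₀) := hΨ1.contDiffAt
  have hstr := hΨ2.hasStrictFDerivAt (by simp)
  have hder : ∀ v : V, fderiv ℝ Ψ (x₀, q₀) (0, v) = v := by
    have h1 : HasFDerivAt (fun q : V => ((x₀, q) : ℝ × V)) (ContinuousLinearMap.inr ℝ ℝ V) q₀ :=
      hasFDerivAt_prodMk_right x₀ q₀
    have h2 : HasFDerivAt (fun q : V => Ψ (x₀, q)) ((fderiv ℝ Ψ (x₀, q₀)).comp (ContinuousLinearMap.inr ℝ ℝ V)) q₀ :=
      HasFDerivAt.comp q₀ (g := Ψ) hstr.hasFDerivAt h1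
    have h3 : (fun q : V => Ψ (x₀, q)) =ᶠ[𝓝 q₀] id := hl.localInverse_eventuallyEq_left
    have h4 : HasFDerivAt (fun q : V => Ψ (x₀, q)) (ContinuousLinearMap.id ℝ V) q₀ :=
      (hasFDerivAt_id q₀).congr_of_eventuallyEq h3
    have h5 := h2.unique h4
    intro v
    have h6 := congrArg (fun L : V →L[ℝ] V => L v) h5
    exact h6
  have hev := hstr.isLittleO.def (c := 1 / 2) (by norm_num)
  rw [nhds_prod_eq] at hev
  obtain ⟨U, hU, hUe⟩ := Filter.mem_prod_same_iff.1 hev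
  refine ⟨U, hU, fun x q q' h h' he => ?_⟩
  have h1 : ‖Ψ (x, q) - Ψ (x, q') - (fderiv ℝ Ψ (x₀, q₀)) ((x, q) - (x, q'))‖ ≤ 1 / 2 * ‖((x, q) : ℝ × V) - (x, q')‖ :=
    hUe (show (((x, q) : ℝ × V), ((x, q') : ℝ × V)) ∈ U ×ˢ U from ⟨h, h'⟩)
  have h2 : Ψ (x, q) = Ψ (x, q') := by
    show hl.localInverse (e x q) = hl.localInverse (e x q')
    rw [he]
  have h3 : ((x, q) : ℝ × V) - (x, q') = (0, q - q') := by
    refine Prod.ext ?_ rfl
    show x - x = 0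
    ring
  rw [h2, sub_self, h3, hder, zero_sub, norm_neg] at h1
  have h4 : ‖((0 : ℝ), q - q')‖ = ‖q - q'‖ := by
    rw [Prod.norm_mk, norm_zero]
    exact max_eq_right (norm_nonneg _)
  rw [h4] at h1
  have h5 : ‖q - q'‖ = 0 := by
    have := norm_nonneg (q - q')
    linarith
  exact sub_eq_zero.1 (norm_eq_zero.1 h5)

end

end Pool.Agent.RBN
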